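import Pool.Agent.RI.Defs

/-! Module RI-ABEL: if all `m_st = 2` (`s ≠ t`) then `A_M` is a finitely generated abelian group and the
automorphism `g ↦ g⁻¹` has finitely many twisted conjugacy classes.

Proof.  The generators commute (`alt s t 2 = alt t s 2`), so the group is commutative
(`Subgroup.closure_induction` or `PresentedGroup.ext`-like arguments).  For
`φ = MulEquiv.inv` (needs the commutative group structure; or build `φ` by hand)
`y = g x φ(g)⁻¹ = g² x`; the classes are the cosets of the squares.  The map
`Finset S → Quot`, `F ↦ [∏_{s ∈ F} s]`, is onto (a group element is `∏ s^{n_s}`), or: the quotient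
`G ⧸ {squares}` is a finitely generated commutative group of exponent 2, hence finite
(`CommGroup.finite_of_fg_torsion`). -/

namespace Pool.Agent.RI

private theorem gens_comm {S : Type} (M : CoxeterMatrix S)
    (h : ∀ s t, s ≠ t → M s t = 2) (s t : S) :
    (PresentedGroup.of s : ArtinGroup M) * PresentedGroup.of t =
      PresentedGroup.of t * PresentedGroup.of s := by
  by_cases hst : s = t
  · subst hst; rfl
  · have h2 := h s t hst
    have hr : alt (FreeGroup.of s) (FreeGroup.of t) (M s t) *
        (alt (FreeGroup.of t) (FreeGroup.of s) (M s t))⁻¹ ∈ artinRels M :=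
      ⟨s, t, hst, by rw [h2]; norm_num, rfl⟩
    rw [h2] at hr
    have h3 := PresentedGroup.one_of_mem hr
    rw [map_mul, map_inv, mul_inv_eq_one] at h3
    simp only [alt, mul_one, map_mul] at h3
    exact h3

theorem mul_comm_all {S : Type} (M : CoxeterMatrix S)
    (h : ∀ s t, s ≠ t → M s t = 2) (x y : ArtinGroup M) : x * y = y * x := by
  have h1 : ∀ s : S, ∀ y : ArtinGroup M,
      (PresentedGroup.of s : ArtinGroup M) * y = y * PresentedGroup.of s := by
    intro s
    have h2 : Subgroup.centralizer {(PresentedGroup.of s : ArtinGroup M)} = ⊤ := by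
      rw [eq_top_iff, ← PresentedGroup.closure_range_of, Subgroup.closure_le]
      rintro _ ⟨t, rfl⟩
      rw [SetLike.mem_coe, Subgroup.mem_centralizer_singleton_iff]
      exact gens_comm M h _ _
    intro y
    have h3 : y ∈ Subgroup.centralizer {(PresentedGroup.of s : ArtinGroup M)} := by
      rw [h2]; trivial
    rw [Subgroup.mem_centralizer_singleton_iff] at h3
    exact h3.symm
  have h2 : Subgroup.centralizer {y} = ⊤ := by
    rw [eq_top_iff, ← PresentedGroup.closure_range_of, Subgroup.closure_le]
    rintro _ ⟨t, rfl⟩
    rw [SetLike.mem_coe, Subgroup.mem_centralizer_singleton_iff]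
    exact h1 t y
  have h3 : x ∈ Subgroup.centralizer {y} := by rw [h2]; trivial
  rw [Subgroup.mem_centralizer_singleton_iff] at h3
  exact h3

private theorem not_propRInf_of_comm {G : Type} [CommGroup G] [Group.FG G] :
    ¬ PropRInf G := by
  intro hP
  have h1 := hP (MulEquiv.inv G)
  unfold InfReid at h1
  let N : Subgroup G := (powMonoidHom 2 : G →* G).range
  haveI hfin : Finite (G ⧸ N) := by
    refine CommGroup.finite_of_fg_torsion _ ?_
    intro q
    rw [isOfFinOrder_iff_pow_eq_one]
    refine ⟨2, by norm_num, ?_⟩
    induction q using QuotientGroup.induction_on with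
    | H x =>
      rw [← QuotientGroup.mk_pow, QuotientGroup.eq_one_iff]
      exact ⟨x, rfl⟩
  have hsurj : Function.Surjective (fun q : G ⧸ N =>
      Quotient.liftOn' q (fun x => Quot.mk (TwConj (MulEquiv.inv G)) x) (by
        intro a b hab
        rw [QuotientGroup.leftRel_apply] at hab
        obtain ⟨g, hg⟩ := hab
        refine Quot.sound ⟨g, ?_⟩
        have hg' : g ^ 2 = a⁻¹ * b := hg
        have h5 : b = a * g ^ 2 := by rw [hg']; group
        rw [MulEquiv.inv_apply, inv_inv, h5, sq]
        exact (by rw [mul_comm g a, mul_assoc]))) := by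
    intro q
    induction q using Quot.ind with
    | mk x => exact ⟨(QuotientGroup.mk x : G ⧸ N), rfl⟩
  have hfin2 : Finite (Quot (TwConj (MulEquiv.inv G))) := Finite.of_surjective _ hsurj
  exact not_finite (Quot (TwConj (MulEquiv.inv G)))

theorem not_propRInf_of_two {S : Type} [Finite S] (M : CoxeterMatrix S)
    (h : ∀ s t, s ≠ t → M s t = 2) : ¬ PropRInf (ArtinGroup M) := by
  haveI hfg : Group.FG (ArtinGroup M) := by
    rw [Group.fg_iff]
    exact ⟨Set.range PresentedGroup.of, PresentedGroup.closure_range_of _, Set.finite_range _⟩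
  letI inst : CommGroup (ArtinGroup M) :=
    { (inferInstance : Group (ArtinGroup M)) with
      mul_comm := mul_comm_all M h }
  have h1 := @not_propRInf_of_comm (ArtinGroup M) inst hfg
  exact h1

end Pool.Agent.RI
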