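import Pool.Agent.RI.Defs

/-! Module RI-ALT: the alternating groups `A_{q+2}`, `q ≥ 5` prime.

`alt_conj`: an element of `S_{q+2}` of prime order `q` has cycle type consisting of `q`-cycles only
(`Equiv.Perm.cycleType_of_pow_prime_eq_one` or: `lcm` of the cycle type is `q`, all entries divide
`q` and are `≥ 2`, so all are `q`), and the sum of the cycle type is `≤ q + 2 < 2 q`, so the cycle
type is `{q}`.  Equal cycle types: conjugate in `S_{q+2}` (`Equiv.Perm.isConj_iff_cycleType_eq`), and in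
`A_{q+2}` by `alternatingGroup.isConj_of` (support has `q` elements, `q + 2 ≤ q + 2`).
`alt_exists_order`: a `q`-cycle, e.g. by Cauchy's theorem (`exists_prime_orderOf_dvd_card`).
`alt_simple`: Mathlib.  `alt_noncomm`: `alternatingGroup.isMulCommutative_iff_card_le_three` or two
3-cycles.  `alt_card_inj`: the order is `(q+2)! / 2`, strictly increasing. -/

namespace Pool.Agent.RI

open Equiv Equiv.Perm

theorem alt_simple (q : ℕ) (hq : 5 ≤ q) : IsSimpleGroup (alternatingGroup (Fin (q + 2))) :=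
  alternatingGroup.isSimpleGroup (by simp; omega)

theorem alt_noncomm (q : ℕ) (hq : 5 ≤ q) :
    ∃ a b : alternatingGroup (Fin (q + 2)), a * b ≠ b * a := by
  have h01 : (⟨0, by omega⟩ : Fin (q + 2)) ≠ ⟨1, by omega⟩ := by simp [Fin.ext_iff]
  have h02 : (⟨0, by omega⟩ : Fin (q + 2)) ≠ ⟨2, by omega⟩ := by simp [Fin.ext_iff]
  have h03 : (⟨0, by omega⟩ : Fin (q + 2)) ≠ ⟨3, by omega⟩ := by simp [Fin.ext_iff]
  have h12 : (⟨1, by omega⟩ : Fin (q + 2)) ≠ ⟨2, by omega⟩ := by simp [Fin.ext_iff]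
  have h13 : (⟨1, by omega⟩ : Fin (q + 2)) ≠ ⟨3, by omega⟩ := by simp [Fin.ext_iff]
  have h23 : (⟨2, by omega⟩ : Fin (q + 2)) ≠ ⟨3, by omega⟩ := by simp [Fin.ext_iff]
  generalize (⟨0, by omega⟩ : Fin (q + 2)) = x0 at *
  generalize (⟨1, by omega⟩ : Fin (q + 2)) = x1 at *
  generalize (⟨2, by omega⟩ : Fin (q + 2)) = x2 at *
  generalize (⟨3, by omega⟩ : Fin (q + 2)) = x3 at *
  refine ⟨⟨swap x0 x1 * swap x1 x2, ?_⟩, ⟨swap x0 x1 * swap x1 x3, ?_⟩, ?_⟩
  · rw [mem_alternatingGroup, map_mul, sign_swap h01, sign_swap h12]; simp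
  · rw [mem_alternatingGroup, map_mul, sign_swap h01, sign_swap h13]; simp
  · intro h
    have h' := congrArg (fun g : alternatingGroup (Fin (q + 2)) => (g : Perm (Fin (q + 2))) x2) h
    simp only [Subgroup.coe_mul, Perm.coe_mul, Function.comp] at h'
    simp only [swap_apply_right, swap_apply_left, swap_apply_of_ne_of_ne h12.symm h23,
      swap_apply_of_ne_of_ne h02.symm h12.symm, swap_apply_of_ne_of_ne h01 h03,
      swap_apply_of_ne_of_ne h01 h02] at h'
    revert h'
    simp_all [swap_apply_def]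

theorem alt_exists_order (q : ℕ) (hp : q.Prime) (hq : 5 ≤ q) :
    ∃ a : alternatingGroup (Fin (q + 2)), orderOf a = q := by
  haveI : Fact q.Prime := ⟨hp⟩
  have hd : q ∣ Nat.card (alternatingGroup (Fin (q + 2))) := by
    have h2 := two_mul_nat_card_alternatingGroup (α := Fin (q + 2))
    rw [Nat.card_perm, Nat.card_fin] at h2
    have h3 : q ∣ 2 * Nat.card (alternatingGroup (Fin (q + 2))) := by
      rw [h2]; exact Nat.dvd_factorial (by omega) (by omega)
    rcases hp.dvd_mul.1 h3 with h | h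
    · exact absurd (Nat.le_of_dvd (by norm_num) h) (by omega)
    · exact h
  exact exists_prime_orderOf_dvd_card' q hd

theorem alt_cycleType (q : ℕ) (hp : q.Prime) (hq : 5 ≤ q) (a : alternatingGroup (Fin (q + 2)))
    (ha : orderOf a = q) : (a : Perm (Fin (q + 2))).cycleType = {q} := by
  have ho : orderOf (a : Perm (Fin (q + 2))) = q := by rw [Subgroup.orderOf_coe, ha]
  obtain ⟨n, hn⟩ := cycleType_prime_order (σ := (a : Perm (Fin (q + 2)))) (by rw [ho]; exact hp)
  have hs := sum_cycleType_le (a : Perm (Fin (q + 2)))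
  rw [hn, ho, Multiset.sum_replicate, Fintype.card_fin, smul_eq_mul] at hs
  have hn0 : n = 0 := by
    rcases Nat.eq_zero_or_pos n with h | h
    · exact h
    · have : 2 * q ≤ (n + 1) * q := Nat.mul_le_mul_right q (by omega)
      omega
  rw [hn, ho, hn0]
  rfl

theorem alt_conj (q : ℕ) (hp : q.Prime) (hq : 5 ≤ q) (a b : alternatingGroup (Fin (q + 2)))
    (ha : orderOf a = q) (hb : orderOf b = q) : ∃ c, b = c * a * c⁻¹ := by
  have h1 := alt_cycleType q hp hq a ha
  have h2 := alt_cycleType q hp hq b hb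
  have hc : IsConj (a : Perm (Fin (q + 2))) (b : Perm (Fin (q + 2))) :=
    isConj_iff_cycleType_eq.2 (h1.trans h2.symm)
  have hs : (a : Perm (Fin (q + 2))).support.card + 2 ≤ Fintype.card (Fin (q + 2)) := by
    rw [← sum_cycleType, h1]; simp
  obtain ⟨c, hc⟩ := isConj_iff.1 (alternatingGroup.isConj_of hc hs)
  exact ⟨c, hc.symm⟩

theorem alt_card_inj (q q' : ℕ) (h : Nat.card (alternatingGroup (Fin (q + 2))) =
    Nat.card (alternatingGroup (Fin (q' + 2)))) : q = q' := by
  have h1 := two_mul_nat_card_alternatingGroup (α := Fin (q + 2))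
  have h2 := two_mul_nat_card_alternatingGroup (α := Fin (q' + 2))
  rw [Nat.card_perm, Nat.card_fin] at h1 h2
  rw [h, h2] at h1
  have := (Nat.factorial_inj (n := q' + 2) (m := q + 2) (by omega)).1 h1
  omega

end Pool.Agent.RI
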