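import Pool.Agent.RI.Defs

/-! Module RI-NS: consequences of the Nielsen-Schreier theorem (`subgroupIsFreeOfIsFree`).

`exists_onto_free`: the range of `ψ` is a free group (`IsFreeGroup`), with free basis
`ι = IsFreeGroup.Generators ψ.range`; `ψ.rangeRestrict` composed with
`IsFreeGroup.toFreeGroup` is onto.  If `ι` had at most one element, `FreeGroup ι` would be commutative
(cyclic), contradicting the hypothesis.

`not_commute_conj_sq`: let `a`, `b` be the two conjugates.  If they commute, the subgroup `J` generated by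
them is commutative and free, hence cyclic (if the basis had two elements `i ≠ j`, `of i` and `of j`
would not commute), so `a = c ^ k`, `b = c ^ l`.  Apply the homomorphisms `FreeGroup (Fin 2) → ℤ`
(exponent sum of the first resp. second generator, via `FreeGroup.lift` to `Multiplicative ℤ`):
`(2, 0) = k (u, v)`, `(0, 2) = l (u, v)`: then `k v = 0`, `k u = 2`, so `v = 0`, but `l v = 2`. -/

namespace Pool.Agent.RI

/-- a free group on at most one generator is cyclic -/
private theorem ns_cyclic {ι : Type} (h : ∀ i j : ι, i = j) :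
    ∃ c : FreeGroup ι, ∀ x : FreeGroup ι, ∃ k : ℤ, c ^ k = x := by
  rcases isEmpty_or_nonempty ι with hι | ⟨⟨i⟩⟩
  · exact ⟨1, fun x => ⟨0, Subsingleton.elim _ _⟩⟩
  · refine ⟨FreeGroup.of i, fun x => ?_⟩
    have h1 : Set.range (FreeGroup.of : ι → FreeGroup ι) = {FreeGroup.of i} := by
      ext y
      constructor
      · rintro ⟨j, rfl⟩
        rw [h j i]
        exact rfl
      · rintro rfl
        exact ⟨i, rfl⟩
    have h2 : x ∈ Subgroup.closure (Set.range (FreeGroup.of : ι → FreeGroup ι)) := by
      rw [FreeGroup.closure_range_of]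
      exact Subgroup.mem_top x
    rw [h1, Subgroup.mem_closure_singleton] at h2
    exact h2

theorem exists_onto_free {H : Type} [Group H] (ψ : H →* FreeGroup (Fin 2))
    (hψ : ∃ a b : H, ψ a * ψ b ≠ ψ b * ψ a) :
    ∃ (ι : Type) (i j : ι), i ≠ j ∧ ∃ θ : H →* FreeGroup ι, Function.Surjective θ := by
  haveI : IsFreeGroup ψ.range := inferInstance
  let e : ψ.range ≃* FreeGroup (IsFreeGroup.Generators ψ.range) := IsFreeGroup.toFreeGroup ψ.range
  by_contra hcon
  have h1 : ∀ i j : IsFreeGroup.Generators ψ.range, i = j := by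
    intro i j
    by_contra hij
    exact hcon ⟨_, i, j, hij, e.toMonoidHom.comp ψ.rangeRestrict,
      e.surjective.comp ψ.rangeRestrict_surjective⟩
  obtain ⟨c, hc⟩ := ns_cyclic h1
  obtain ⟨a, b, hab⟩ := hψ
  apply hab
  have h2 : ψ.rangeRestrict a * ψ.rangeRestrict b = ψ.rangeRestrict b * ψ.rangeRestrict a := by
    apply e.injective
    obtain ⟨k, hk⟩ := hc (e (ψ.rangeRestrict a))
    obtain ⟨l, hl⟩ := hc (e (ψ.rangeRestrict b))
    rw [map_mul, map_mul, ← hk, ← hl, ← zpow_add, ← zpow_add, add_comm]
  have h3 := congrArg (Subtype.val) h2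
  simpa using h3

theorem not_commute_conj_sq (g h : FreeGroup (Fin 2)) :
    (g * FreeGroup.of 0 ^ 2 * g⁻¹) * (h * FreeGroup.of 1 ^ 2 * h⁻¹) ≠
      (h * FreeGroup.of 1 ^ 2 * h⁻¹) * (g * FreeGroup.of 0 ^ 2 * g⁻¹) := by
  intro hcomm
  set a := g * FreeGroup.of 0 ^ 2 * g⁻¹ with ha
  set b := h * FreeGroup.of 1 ^ 2 * h⁻¹ with hb
  let J : Subgroup (FreeGroup (Fin 2)) := Subgroup.closure {a, b}
  have haJ : a ∈ J := Subgroup.subset_closure (by simp)
  have hbJ : b ∈ J := Subgroup.subset_closure (by simp)
  have hJ : ∀ x y : J, x * y = y * x := by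
    letI : CommGroup J := Subgroup.closureCommGroupOfComm (by
      rintro x (rfl | hx) y (rfl | hy)
      · rfl
      · rw [Set.mem_singleton_iff.1 hy]
        exact hcomm
      · rw [Set.mem_singleton_iff.1 hx]
        exact hcomm.symm
      · rw [Set.mem_singleton_iff.1 hx, Set.mem_singleton_iff.1 hy])
    intro x y
    exact mul_comm x y
  haveI : IsFreeGroup J := inferInstance
  let e : J ≃* FreeGroup (IsFreeGroup.Generators J) := IsFreeGroup.toFreeGroup J
  have h1 : ∀ i j : IsFreeGroup.Generators J, i = j := by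
    intro i j
    by_contra hij
    have h2 : FreeGroup.of i * FreeGroup.of j = FreeGroup.of j * FreeGroup.of i := by
      have := hJ (e.symm (FreeGroup.of i)) (e.symm (FreeGroup.of j))
      have h3 := congrArg e this
      simpa using h3
    classical
    have h5 := congrArg (FreeGroup.lift (fun k => if k = i then
      (Equiv.swap (0 : Fin 3) 1 : Equiv.Perm (Fin 3)) else Equiv.swap 1 2)) h2
    rw [map_mul, map_mul, FreeGroup.lift_apply_of, FreeGroup.lift_apply_of, if_pos rfl,
      if_neg (fun hji => hij hji.symm)] at h5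
    revert h5
    decide
  obtain ⟨c, hc⟩ := ns_cyclic h1
  obtain ⟨k, hk⟩ := hc (e ⟨a, haJ⟩)
  obtain ⟨l, hl⟩ := hc (e ⟨b, hbJ⟩)
  set c' : FreeGroup (Fin 2) := ((e.symm c : J) : FreeGroup (Fin 2)) with hc'
  have hka : c' ^ k = a := by
    have h2 := congrArg e.symm hk
    rw [map_zpow, MulEquiv.symm_apply_apply] at h2
    have h3 := congrArg Subtype.val h2
    simpa using h3
  have hlb : c' ^ l = b := by
    have h2 := congrArg e.symm hl
    rw [map_zpow, MulEquiv.symm_apply_apply] at h2
    have h3 := congrArg Subtype.val h2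
    simpa using h3
  let φ : Fin 2 → (FreeGroup (Fin 2) →* Multiplicative ℤ) := fun t =>
    FreeGroup.lift (fun i => if i = t then Multiplicative.ofAdd 1 else 1)
  have hφa : ∀ t, φ t a = (φ t (FreeGroup.of 0)) ^ 2 := by
    intro t
    rw [ha, map_mul, map_mul, map_pow, map_inv, mul_comm (φ t g), mul_assoc, mul_inv_cancel,
      mul_one]
  have hφb : ∀ t, φ t b = (φ t (FreeGroup.of 1)) ^ 2 := by
    intro t
    rw [hb, map_mul, map_mul, map_pow, map_inv, mul_comm (φ t h), mul_assoc, mul_inv_cancel,
      mul_one]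
  have e1 : k * (φ 0 c').toAdd = 2 := by
    have := congrArg (φ 0) hka
    rw [map_zpow, hφa] at this
    have h2 := congrArg Multiplicative.toAdd this
    simpa [φ] using h2
  have e2 : k * (φ 1 c').toAdd = 0 := by
    have := congrArg (φ 1) hka
    rw [map_zpow, hφa] at this
    have h2 := congrArg Multiplicative.toAdd this
    simpa [φ] using h2
  have e3 : l * (φ 1 c').toAdd = 2 := by
    have := congrArg (φ 1) hlb
    rw [map_zpow, hφb] at this
    have h2 := congrArg Multiplicative.toAdd this
    simpa [φ] using h2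
  rcases mul_eq_zero.1 e2 with h0 | h0
  · rw [h0, zero_mul] at e1
    norm_num at e1
  · rw [h0, mul_zero] at e3
    norm_num at e3

end Pool.Agent.RI
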