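import Pool.Agent.RI.Coc
import Pool.Agent.RI.Ns

/-! Module RI-CASEA.

Proof.  `r1 = u σ_s u⁻¹`, `r2 = v σ_t v⁻¹`; `r1 ≠ r2` (else `r1 r2 = 1`, since `r1 r1 = 1`).
Apply `exists_coc` with `X = Q`, `p s x = x * σ s` (`Equiv.mulRight (σ s)`), `T = FreeGroup (Fin 2)`,
`f s x = of 0` if `x * σ s * x⁻¹ = r1`, `of 1` if it is `r2`, `1` otherwise.
`hend`: `pEnd_mulRight`, `alt_eq_of_pow`.  `hprod`: let `m = M s t`.  The `j`-th step (`j < m`) of the path
starting at `x` with first letter `s` goes from `y = x * alt (σ s) (σ t) j` by the letter `l`, and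
`y * σ l * y⁻¹ = x (σ s σ t)^j σ s x⁻¹ =: ρ_j`.  The path with first letter `t` has at step `j`
`x (σ t σ s)^j σ t x⁻¹ = ρ_(m-1-j)` (as `(σ s σ t)^m = 1`).  No two of the `ρ_i, ρ_j` are `r1` and `r2`:
`ρ_i ρ_j = x (σ s σ t)^(i-j) x⁻¹` has `m`-th power `1`, so `B`-th power `1` as `m ∣ B`; but
`(r1 r2)^B ≠ 1` and `(r2 r1)^B ≠ 1`.  So both products are the same power of `of 0` or of `of 1`: the
number of `j < m` with `ρ_j = r1` (resp. `r2`).
Let `H = {g | act g 1 = 1}` (finite index: `MulAction`-stabiliser in a finite set, or the kernel of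
`act`), `ψ g = κ g 1`, a homomorphism on `H`.  There is `g : ArtinGroup M` with `act g⁻¹ 1 = u`
(`u` is in the subgroup generated by the `σ s`; `act (of s)⁻¹ x = act (of s) x = x * σ s`), and then
`a = g (of s)² g⁻¹ ∈ H` and `κ a 1 = κ g u * (of 0)² * (κ g u)⁻¹`, because `f s u = of 0`,
`f s (u σ s) = of 0`.  In the same way `b ∈ H` with `ψ b` conjugate to `(of 1)²`.
By `not_commute_conj_sq` they do not commute. -/

namespace Pool.Agent.RI

namespace CaseA

/-- conjugates along an alternating word in two involutions. -/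
theorem alt_conj {Q : Type} [Group Q] (a b : Q) (ha : a * a = 1) (hb : b * b = 1) (n : ℕ) :
    alt a b n * (if Even n then a else b) * (alt a b n)⁻¹ = (a * b) ^ n * a := by
  induction n generalizing a b with
  | zero => simp [alt]
  | succ n ih =>
    have h1 : (if Even (n + 1) then a else b) = if Even n then b else a := by
      by_cases hn : Even n
      · rw [if_pos hn, if_neg (by rwa [Nat.even_add_one, not_not])]
      · rw [if_neg hn, if_pos (by rwa [Nat.even_add_one])]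
    rw [h1]
    have h2 := ih b a hb ha
    have ha' : a⁻¹ = a := inv_eq_of_mul_eq_one_left ha
    change a * alt b a n * _ * (a * alt b a n)⁻¹ = _
    calc a * alt b a n * (if Even n then b else a) * (a * alt b a n)⁻¹
        = a * (alt b a n * (if Even n then b else a) * (alt b a n)⁻¹) * a⁻¹ := by
          simp only [mul_inv_rev, mul_assoc]
      _ = a * ((b * a) ^ n * b) * a := by rw [h2, ha']
      _ = (a * b) ^ (n + 1) * a := by
          rw [pow_succ, ← mul_assoc a, ← mul_pow_mul]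
          simp only [mul_assoc]

theorem reflect {Q : Type} [Group Q] (a b : Q) (ha : a * a = 1) (hb : b * b = 1) {m j : ℕ} (hj : j < m)
    (hm : (a * b) ^ m = 1) : (b * a) ^ j * b = (a * b) ^ (m - 1 - j) * a := by
  have ha' : a⁻¹ = a := inv_eq_of_mul_eq_one_left ha
  have hb' : b⁻¹ = b := inv_eq_of_mul_eq_one_left hb
  have h1 : ((b * a) ^ j * b)⁻¹ = b * (a * b) ^ j := by
    rw [mul_inv_rev, ← inv_pow, mul_inv_rev, ha', hb']
  have h2 : (a * b) ^ (m - 1 - j) * a * ((b * a) ^ j * b)⁻¹ = 1 := by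
    rw [h1, mul_assoc, ← mul_assoc a b, ← pow_succ', ← pow_add, show m - 1 - j + (j + 1) = m by omega, hm]
  exact (mul_inv_eq_one.1 h2).symm

theorem pow_two_reflections {Q : Type} [Group Q] (a b x : Q) (ha : a * a = 1) (hb : b * b = 1) (m i j : ℕ)
    (hm : (a * b) ^ m = 1) :
    ((x * ((a * b) ^ i * a) * x⁻¹) * (x * ((a * b) ^ j * a) * x⁻¹)) ^ m = 1 := by
  have ha' : a⁻¹ = a := inv_eq_of_mul_eq_one_left ha
  have hb' : b⁻¹ = b := inv_eq_of_mul_eq_one_left hb
  have h1 : (x * ((a * b) ^ i * a) * x⁻¹) * (x * ((a * b) ^ j * a) * x⁻¹) =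
      x * ((a * b) ^ i * ((a * b)⁻¹) ^ j) * x⁻¹ := by
    have h2 : a * ((a * b) ^ j * a) = ((a * b)⁻¹) ^ j := by
      rw [mul_inv_rev, ha', hb', mul_pow_mul, ← mul_assoc, ha, one_mul]
    rw [← h2]
    group
  rw [h1, conj_pow]
  have h3 : Commute ((a * b) ^ i) (((a * b)⁻¹) ^ j) :=
    ((Commute.refl (a * b)).inv_right.pow_pow i j)
  rw [h3.mul_pow, ← pow_mul, ← pow_mul, mul_comm i m, mul_comm j m, pow_mul, pow_mul, hm, inv_pow, hm]
  simp

theorem pProd_eq_pow {S Q T : Type} [Group Q] [Group T] (σ : S → Q) (hinv : ∀ s, σ s * σ s = 1) (G : Q → T)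
    (s t : S) (x : Q) (z : T) (e : ℕ → ℕ) (n : ℕ)
    (h : ∀ j < n, G (x * ((σ s * σ t) ^ j * σ s) * x⁻¹) = z ^ e j) :
    pProd (fun s => Equiv.mulRight (σ s)) (fun s x => G (x * σ s * x⁻¹)) s t n x =
      z ^ (∑ j ∈ Finset.range n, e j) := by
  induction n with
  | zero => simp [pProd]
  | succ n ih =>
    rw [pProd_succ, pEnd_mulRight, ih (fun j hj => h j (by omega)), Finset.sum_range_succ,
      add_comm, pow_add, ← h n (by omega)]
    congr 2
    rw [← alt_conj (σ s) (σ t) (hinv s) (hinv t) n]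
    have h1 : σ (if Even n then s else t) = if Even n then σ s else σ t := apply_ite σ _ _ _
    rw [h1]
    group

end CaseA

open Classical in
theorem large_of_quot {S : Type} (M : CoxeterMatrix S) {Q : Type} [Group Q] [Finite Q] (σ : S → Q)
    (hinv : ∀ s, σ s * σ s = 1) (hm : ∀ s t, (σ s * σ t) ^ M s t = 1) (B : ℕ)
    (hB : ∀ s t, s ≠ t → M s t ≠ 0 → M s t ∣ B) (u v : Q)
    (hu : u ∈ Subgroup.closure (Set.range σ)) (hv : v ∈ Subgroup.closure (Set.range σ)) (s t : S)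
    (h : ((u * σ s * u⁻¹) * (v * σ t * v⁻¹)) ^ B ≠ 1) : Large (ArtinGroup M) := by
  set r1 := u * σ s * u⁻¹ with hr1
  set r2 := v * σ t * v⁻¹ with hr2
  have hne : r2 ≠ r1 := by
    intro he
    apply h
    rw [he]
    have h1 : r1 * r1 = 1 := by
      rw [hr1]
      calc u * σ s * u⁻¹ * (u * σ s * u⁻¹) = u * (σ s * σ s) * u⁻¹ := by group
        _ = 1 := by rw [hinv]; group
    rw [h1, one_pow]
  let G : Q → FreeGroup (Fin 2) := fun r => if r = r1 then FreeGroup.of 0 else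
    if r = r2 then FreeGroup.of 1 else 1
  have hprod : ∀ s t, s ≠ t → M s t ≠ 0 → ∀ x,
      pProd (fun s => Equiv.mulRight (σ s)) (fun s x => G (x * σ s * x⁻¹)) s t (M s t) x =
        pProd (fun s => Equiv.mulRight (σ s)) (fun s x => G (x * σ s * x⁻¹)) t s (M s t) x := by
    intro s t hst h0 x
    have hno : ∀ i j, ¬ (x * ((σ s * σ t) ^ i * σ s) * x⁻¹ = r1 ∧ x * ((σ s * σ t) ^ j * σ s) * x⁻¹ = r2) := by
      rintro i j ⟨h1, h2⟩
      have h3 := CaseA.pow_two_reflections (σ s) (σ t) x (hinv s) (hinv t) (M s t) i j (hm s t)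
      rw [h1, h2] at h3
      obtain ⟨k, hk⟩ := hB s t hst h0
      apply h
      rw [hk, pow_mul, h3, one_pow]
    have key : ∃ (z : FreeGroup (Fin 2)) (e : Q → ℕ), ∀ j, G (x * ((σ s * σ t) ^ j * σ s) * x⁻¹) =
        z ^ e (x * ((σ s * σ t) ^ j * σ s) * x⁻¹) := by
      by_cases hc : ∃ i, x * ((σ s * σ t) ^ i * σ s) * x⁻¹ = r1
      · obtain ⟨i, hi⟩ := hc
        refine ⟨FreeGroup.of 0, fun r => if r = r1 then 1 else 0, fun j => ?_⟩
        have h1 : x * ((σ s * σ t) ^ j * σ s) * x⁻¹ ≠ r2 := fun h2 => hno i j ⟨hi, h2⟩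
        simp only [G, if_neg h1]
        split_ifs <;> simp
      · refine ⟨FreeGroup.of 1, fun r => if r = r2 then 1 else 0, fun j => ?_⟩
        have h1 : x * ((σ s * σ t) ^ j * σ s) * x⁻¹ ≠ r1 := fun h2 => hc ⟨j, h2⟩
        simp only [G, if_neg h1]
        split_ifs <;> simp
    obtain ⟨z, e, hz⟩ := key
    rw [CaseA.pProd_eq_pow σ hinv G s t x z (fun j => e (x * ((σ s * σ t) ^ j * σ s) * x⁻¹)) (M s t)
      (fun j _ => hz j),
      CaseA.pProd_eq_pow σ hinv G t s x z (fun j => e (x * ((σ s * σ t) ^ (M s t - 1 - j) * σ s) * x⁻¹)) (M s t)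
      (fun j hj => by
        rw [CaseA.reflect (σ s) (σ t) (hinv s) (hinv t) hj (hm s t)]
        exact hz _)]
    congr 1
    exact (Finset.sum_range_reflect (fun j => e (x * ((σ s * σ t) ^ j * σ s) * x⁻¹)) (M s t)).symm
  obtain ⟨act, κ, hact, hκ, hκmul, hκ1⟩ := exists_coc M (fun s => Equiv.mulRight (σ s))
    (fun s x => G (x * σ s * x⁻¹)) (fun s t hst h0 x => by
      rw [pEnd_mulRight, pEnd_mulRight, alt_eq_of_pow (σ s) (σ t) (hinv s) (hinv t) _ (hm s t)]) hprod
  have hreach : ∀ w ∈ Subgroup.closure (Set.range σ), ∃ g : ArtinGroup M, act g 1 = w := by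
    intro w hw
    induction hw using Subgroup.closure_induction_right with
    | one => exact ⟨1, by simp⟩
    | mul_right x _ y hy ih =>
      obtain ⟨g, hg⟩ := ih
      obtain ⟨s', rfl⟩ := hy
      refine ⟨PresentedGroup.of s' * g, ?_⟩
      rw [map_mul, Equiv.Perm.mul_apply, hg, hact]
      rfl
    | mul_inv_cancel x _ y hy ih =>
      obtain ⟨g, hg⟩ := ih
      obtain ⟨s', rfl⟩ := hy
      refine ⟨(PresentedGroup.of s')⁻¹ * g, ?_⟩
      rw [map_mul, Equiv.Perm.mul_apply, hg, map_inv, hact]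
      rfl
  -- the homomorphism
  let ψ : act.ker →* FreeGroup (Fin 2) :=
    { toFun := fun g => κ g.1 1
      map_one' := hκ1 1
      map_mul' := by
        intro g g'
        change κ (g.1 * g'.1) 1 = κ g.1 1 * κ g'.1 1
        have h1 : act g'.1 = 1 := g'.2
        rw [hκmul, h1, Equiv.Perm.one_apply] }
  have hsq : ∀ (s : S) (w : Q) (z : FreeGroup (Fin 2)), w ∈ Subgroup.closure (Set.range σ) →
      G (w * σ s * w⁻¹) = z → ∃ (a : act.ker) (c : FreeGroup (Fin 2)), ψ a = c * z ^ 2 * c⁻¹ := by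
    intro s w z hw hz
    obtain ⟨g, hg⟩ := hreach w hw
    have hmem : g⁻¹ * (PresentedGroup.of s * PresentedGroup.of s) * g ∈ act.ker := by
      rw [MonoidHom.mem_ker, map_mul, map_mul, map_mul, map_inv, hact]
      have h1 : (Equiv.mulRight (σ s) : Equiv.Perm Q) * Equiv.mulRight (σ s) = 1 := by
        ext x
        simp [mul_assoc, hinv]
      rw [h1, mul_one, inv_mul_cancel]
    refine ⟨⟨_, hmem⟩, κ g⁻¹ w, ?_⟩
    change κ (g⁻¹ * (PresentedGroup.of s * PresentedGroup.of s) * g) 1 = _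
    have h2 : κ g 1 = (κ g⁻¹ w)⁻¹ := by
      have h3 := hκmul g⁻¹ g 1
      rw [inv_mul_cancel, hκ1, hg] at h3
      exact (inv_eq_of_mul_eq_one_right h3.symm).symm
    have h4 : (Equiv.mulRight (σ s)) ((Equiv.mulRight (σ s)) w) = w := by
      simp [mul_assoc, hinv]
    have h5 : G ((Equiv.mulRight (σ s)) w * σ s * ((Equiv.mulRight (σ s)) w)⁻¹) = z := by
      rw [← hz]
      congr 1
      simp only [Equiv.coe_mulRight]
      group
    rw [hκmul, hg, hκmul, map_mul, Equiv.Perm.mul_apply, hκmul, hact, h4, hκ, hκ, h5, hz, h2, pow_two]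
  obtain ⟨a, c, hc⟩ := hsq s u (FreeGroup.of 0) hu (by simp only [G, ← hr1, if_true])
  obtain ⟨b, d, hd⟩ := hsq t v (FreeGroup.of 1) hv (by simp only [G, ← hr2, if_neg hne, if_true])
  refine ⟨act.ker, inferInstance, ψ, a, b, ?_⟩
  rw [hc, hd]
  exact not_commute_conj_sq c d

end Pool.Agent.RI
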