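import Pool.Agent.RI.Coc

/-! Module RI-HEX: the cocycle of three concurrent lines.

Three signs `a, b, g : X → Bool`, of which `(true, true, false)` and `(false, false, true)` do not occur, give
a position `idx ∈ ZMod 6` (six regions around a point); crossing one line changes the position by
`±1`; forward crossings (`+1`) get `1`, backward crossings `i → i - 1` get `hexB i`, which is
`x, y, (x y)⁻¹` for `i = 1, 2, 3` and again for `i = 4, 5, 0`.

`hex_path`: along a path on which every sign changes at most once, the product is `hexG` of the two end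
positions.  Induction on `n` with `pEnd_succ`, `pProd_succ`: let `i, j, k` be the positions of `x`, `x_n`,
`x_{n+1}`.  If the step changes no sign, `k = j` and the factor is `1`.  If it changes exactly one sign,
then this sign has at `x_n` the same value as at `x`; finitely many cases for the nine Booleans
(signs at `x`, `x_n`, `x_{n+1}`); in each case `hexG i k = hexE j k * hexG i j` is one of
`1 = 1`, `B i = B i`, `B (i-1) * B i = B (i-1) * B i` and `B (i-2) * B (i-1) * B i = 1`
(`x y (x y)⁻¹ = 1`, `y (x y)⁻¹ x = 1`, `(x y)⁻¹ x y = 1`). -/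

namespace Pool.Agent.RI

def hexIdx : Bool → Bool → Bool → ZMod 6
  | true, true, true => 0
  | false, true, true => 1
  | false, true, false => 2
  | false, false, false => 3
  | true, false, false => 4
  | true, false, true => 5
  | true, true, false => 0
  | false, false, true => 3

def hexB {T : Type} [Group T] (x y : T) (i : ZMod 6) : T :=
  if i = 1 ∨ i = 4 then x else if i = 2 ∨ i = 5 then y else (x * y)⁻¹

def hexE {T : Type} [Group T] (x y : T) (i j : ZMod 6) : T := if j = i - 1 then hexB x y i else 1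

def hexG {T : Type} [Group T] (x y : T) (i j : ZMod 6) : T :=
  if j = i - 1 then hexB x y i else if j = i - 2 then hexB x y (i - 1) * hexB x y i else 1

private theorem hex_key {T : Type} [Group T] (x y : T) (a0 b0 g0 a1 b1 g1 a2 b2 g2 : Bool)
    (H : ¬ (a0 = true ∧ b0 = true ∧ g0 = false) ∧ ¬ (a1 = true ∧ b1 = true ∧ g1 = false) ∧
      ¬ (a2 = true ∧ b2 = true ∧ g2 = false) ∧ ¬ (a0 = false ∧ b0 = false ∧ g0 = true) ∧
      ¬ (a1 = false ∧ b1 = false ∧ g1 = true) ∧ ¬ (a2 = false ∧ b2 = false ∧ g2 = true) ∧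
      (a1 ≠ a2 → b1 = b2 ∧ g1 = g2) ∧ (b1 ≠ b2 → a1 = a2 ∧ g1 = g2) ∧
      (g1 ≠ g2 → a1 = a2 ∧ b1 = b2) ∧ (a1 ≠ a2 → a1 = a0) ∧ (b1 ≠ b2 → b1 = b0) ∧
      (g1 ≠ g2 → g1 = g0)) :
    hexE x y (hexIdx a1 b1 g1) (hexIdx a2 b2 g2) * hexG x y (hexIdx a0 b0 g0) (hexIdx a1 b1 g1) =
      hexG x y (hexIdx a0 b0 g0) (hexIdx a2 b2 g2) := by
  cases a1 <;> cases b1 <;> cases g1 <;> cases a2 <;> cases b2 <;> cases g2 <;>
    cases a0 <;> cases b0 <;> cases g0 <;> first | (exact absurd H (by decide)) | (clear H)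
  all_goals simp (decide := true) [hexE, hexG, hexB, mul_assoc]

theorem hex_path {S X T : Type} [Group T] (x y : T) (p : S → Equiv.Perm X) (a b g : X → Bool)
    (h1 : ∀ z, ¬ (a z = true ∧ b z = true ∧ g z = false))
    (h2 : ∀ z, ¬ (a z = false ∧ b z = false ∧ g z = true))
    (h3 : ∀ s z, a z ≠ a (p s z) → b z = b (p s z) ∧ g z = g (p s z))
    (h4 : ∀ s z, b z ≠ b (p s z) → a z = a (p s z) ∧ g z = g (p s z))
    (h5 : ∀ s z, g z ≠ g (p s z) → a z = a (p s z) ∧ b z = b (p s z))
    (s t : S) (z : X) (n : ℕ)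
    (ha : ∀ j < n, a (pEnd p s t j z) ≠ a (pEnd p s t (j + 1) z) → a (pEnd p s t j z) = a z)
    (hb : ∀ j < n, b (pEnd p s t j z) ≠ b (pEnd p s t (j + 1) z) → b (pEnd p s t j z) = b z)
    (hg : ∀ j < n, g (pEnd p s t j z) ≠ g (pEnd p s t (j + 1) z) → g (pEnd p s t j z) = g z) :
    pProd p (fun s z => hexE x y (hexIdx (a z) (b z) (g z))
      (hexIdx (a (p s z)) (b (p s z)) (g (p s z)))) s t n z =
      hexG x y (hexIdx (a z) (b z) (g z))
        (hexIdx (a (pEnd p s t n z)) (b (pEnd p s t n z)) (g (pEnd p s t n z))) := by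
  induction n with
  | zero =>
    have e : ∀ i : ZMod 6, hexG x y i i = 1 := by
      intro i
      have h6 : i ≠ i - 1 ∧ i ≠ i - 2 := by revert i; decide
      simp [hexG, h6.1, h6.2]
    simp only [pProd, pEnd]
    exact (e _).symm
  | succ n ih =>
    rw [pProd_succ, ih (fun j hj => ha j (by omega)) (fun j hj => hb j (by omega))
      (fun j hj => hg j (by omega))]
    have ha' := ha n (by omega)
    have hb' := hb n (by omega)
    have hg' := hg n (by omega)
    rw [pEnd_succ] at ha' hb' hg' ⊢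
    exact hex_key x y _ _ _ _ _ _ _ _ _
      ⟨h1 _, h1 _, h1 _, h2 _, h2 _, h2 _, h3 _ _, h4 _ _, h5 _ _, ha', hb', hg'⟩

end Pool.Agent.RI
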