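import Pool.Agent.RI.Flip
import Pool.Agent.RI.Hex

/-! Module RI-CASEB: if the Coxeter group is finite and some finite `m_st ≥ 3` then the Artin group is large.

Proof.  `c = cos (π / m_{s0 t0}) > 0`.  Roots `α = ee s0 = rho 1 (ee s0)`, `β = ee t0`,
`γ = rho (simple s0) (ee t0) = ee t0 + 2 c • ee s0 = β + 2 c α`.  `X = M.Group`,
`p s = Equiv.mulRight (M.simple s)`, `a u = decide (sg α u)`, `b u = decide (sg β u)`, `g u = decide (sg γ u)`
(classical).  h1: if `rho u⁻¹ α ≥ 0`, `rho u⁻¹ β ≥ 0` then `rho u⁻¹ γ = rho u⁻¹ β + 2 c rho u⁻¹ α ≥ 0`.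
h2: roots are `≥ 0` or `≤ 0` (`root_sign`) and not zero (`bil_root`), so not `≥ 0` implies `≤ 0`, same
argument.  h3-h5: by `sg_step` a step `u → u s` changing the sign of `α` has `α = ± rho u (ee s)`; if it
changes also the sign of `β` then `α = ± β`; but `α, β, γ` are pairwise not proportional.
ha, hb, hg for `n = M s t` (`s ≠ t`, `M s t ≠ 0`): `pEnd_mulRight` and `flip_once` (if the sign at `z_j`
differs from the sign at `z_0`, there is a change at some `i < j`).  So by `hex_path` both products in
`hprod` are `hexG` of the same end positions (`hend`: `pEnd_mulRight`, `alt_eq_of_pow`, and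
`M.toCoxeterSystem.simple_mul_simple_pow`).
`exists_coc` with `T = FreeGroup (Fin 2)`, `x = of 0`, `y = of 1`; `H = {g | act g 1 = 1}`, of finite index,
`ψ g = κ g 1`.  `(of s0)² ∈ H`, `κ ((of s0)²) 1 = f s0 (simple s0) * f s0 1 = hexE 1 0 * hexE 0 1 = x`
(position of `1` is `0`; at `simple s0`: `α` negative, `rho s0 β = β + 2 c α ≥ 0`, `rho s0 γ = β ≥ 0`:
position `1`); `κ ((of t0)²) 1 = hexE 5 0 * hexE 0 5 = (x y)⁻¹` (at `simple t0`: `α + 2 c β ≥ 0`, `β`
negative, `rho t0 γ = - β + 2 c (α + 2 c β) = 2 c α + (4 c² - 1) β ≥ 0` as `c ≥ 1/2` for `m ≥ 3`: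
position `5`).  `x` and `(x y)⁻¹` do not commute in the free group. -/

namespace Pool.Agent.RI

variable {S : Type} [Fintype S] [DecidableEq S]

private theorem sg_iff (M : CoxeterMatrix S) (w : M.Group) (r : S) (u : M.Group) :
    sg M (rho M w (ee r)) u ↔ ∀ i, 0 ≤ rho M (u⁻¹ * w) (ee r) i := by
  unfold sg
  rw [map_mul]
  rfl

private theorem not_sg (M : CoxeterMatrix S) (w : M.Group) (r : S) (u : M.Group)
    (h : ¬ sg M (rho M w (ee r)) u) : ∀ i, rho M u⁻¹ (rho M w (ee r)) i ≤ 0 := by
  rw [sg_iff] at h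
  have := root_sign M (u⁻¹ * w) r
  rcases this with h' | h'
  · exact absurd h' h
  · rw [map_mul] at h'
    exact h'

private theorem step_excl (M : CoxeterMatrix S) (w w' : M.Group) (r r' s : S) (u : M.Group)
    (h1 : rho M w (ee r) ≠ rho M w' (ee r')) (h2 : rho M w (ee r) ≠ - rho M w' (ee r'))
    (h : ¬ (sg M (rho M w (ee r)) u ↔ sg M (rho M w (ee r)) (u * M.simple s))) :
    (sg M (rho M w' (ee r')) u ↔ sg M (rho M w' (ee r')) (u * M.simple s)) := by
  by_contra h'
  rcases sg_step M w r s u h with e | e <;> rcases sg_step M w' r' s u h' with e' | e'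
  · exact h1 (by rw [e, e'])
  · exact h2 (by rw [e, e', neg_neg])
  · exact h2 (by rw [e, e'])
  · exact h1 (by rw [e, e'])

private theorem one_flip (M : CoxeterMatrix S) (w : M.Group) (r x y : S) (hxy : x ≠ y)
    (u : M.Group) (j : ℕ) (hj : j < M x y)
    (h : ¬ (sg M (rho M w (ee r)) (u * alt (M.simple x) (M.simple y) j) ↔
      sg M (rho M w (ee r)) (u * alt (M.simple x) (M.simple y) (j + 1)))) :
    (sg M (rho M w (ee r)) (u * alt (M.simple x) (M.simple y) j) ↔ sg M (rho M w (ee r)) u) := by
  have key : ∀ k, k ≤ j → (sg M (rho M w (ee r)) (u * alt (M.simple x) (M.simple y) k) ↔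
      sg M (rho M w (ee r)) u) := by
    intro k
    induction k with
    | zero => intro _; simp [alt]
    | succ k ih =>
      intro hk
      rw [← ih (by omega)]
      by_contra hc
      exact flip_once M x y hxy w r u k j (by omega) (Or.inr hj) (fun e => hc e.symm) h
  exact key j le_rfl

theorem large_of_finite (M : CoxeterMatrix S) [Finite M.Group] (s0 t0 : S) (h : s0 ≠ t0)
    (h0 : M s0 t0 ≠ 0) (h2 : M s0 t0 ≠ 2) : Large (ArtinGroup M) := by
  classical
  set c : ℝ := Real.cos (Real.pi / (M s0 t0 : ℝ)) with hc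
  have hm3 : 3 ≤ M s0 t0 := by
    have := M.off_diagonal s0 t0 h
    omega
  have hc1 : 1 / 2 ≤ c := by
    rw [hc, ← Real.cos_pi_div_three]
    apply Real.cos_le_cos_of_nonneg_of_le_pi
    · positivity
    · have := Real.pi_pos
      linarith
    · have h3 : (3 : ℝ) ≤ (M s0 t0 : ℝ) := by exact_mod_cast hm3
      exact div_le_div_of_nonneg_left Real.pi_pos.le (by norm_num) h3
  have hsym : M t0 s0 = M s0 t0 := M.symmetric _ _
  have hss : ∀ s, bfL M s (ee s) = 1 := by
    intro s
    rw [bfL_ee, M.diagonal]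
    simp
  have hst : bfL M s0 (ee t0) = - c := by rw [bfL_ee]
  have hts : bfL M t0 (ee s0) = - c := by rw [bfL_ee, hsym]
  have ea : rho M 1 (ee s0) = ee s0 := by simp
  have eb : rho M 1 (ee t0) = ee t0 := by simp
  have eg : rho M (M.simple s0) (ee t0) = ee t0 + (2 * c) • ee s0 := by
    rw [rho_simple, refl_apply, hst]
    ext i
    simp
  have hab0 : rho M 1 (ee s0) s0 = 1 ∧ rho M 1 (ee s0) t0 = 0 := by
    rw [ea]; simp [ee, h.symm]
  have hb0 : rho M 1 (ee t0) s0 = 0 ∧ rho M 1 (ee t0) t0 = 1 := by
    rw [eb]; simp [ee, h]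
  have hg0 : rho M (M.simple s0) (ee t0) s0 = 2 * c ∧ rho M (M.simple s0) (ee t0) t0 = 1 := by
    rw [eg]; simp [ee, h, h.symm]
  -- the three signs
  let a : M.Group → Bool := fun u => decide (sg M (rho M 1 (ee s0)) u)
  let b : M.Group → Bool := fun u => decide (sg M (rho M 1 (ee t0)) u)
  let g : M.Group → Bool := fun u => decide (sg M (rho M (M.simple s0) (ee t0)) u)
  have lin : ∀ u : M.Group, rho M u⁻¹ (rho M (M.simple s0) (ee t0)) =
      rho M u⁻¹ (rho M 1 (ee t0)) + (2 * c) • rho M u⁻¹ (rho M 1 (ee s0)) := by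
    intro u
    rw [eg, ea, eb, map_add, map_smul]
  have H1 : ∀ u : M.Group, sg M (rho M 1 (ee s0)) u → sg M (rho M 1 (ee t0)) u →
      sg M (rho M (M.simple s0) (ee t0)) u := by
    intro u h1 h2 i
    rw [lin u]
    have := h1 i
    have := h2 i
    simp only [Pi.add_apply, Pi.smul_apply, smul_eq_mul]
    have : 0 ≤ (2 * c) * rho M u⁻¹ (rho M 1 (ee s0)) i := by
      apply mul_nonneg (by linarith) (h1 i)
    linarith
  have H2 : ∀ u : M.Group, ¬ sg M (rho M 1 (ee s0)) u → ¬ sg M (rho M 1 (ee t0)) u →
      ¬ sg M (rho M (M.simple s0) (ee t0)) u := by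
    intro u h1 h2 h3
    have hz : rho M u⁻¹ (rho M (M.simple s0) (ee t0)) = 0 := by
      ext i
      apply le_antisymm _ (h3 i)
      rw [lin u]
      simp only [Pi.add_apply, Pi.smul_apply, smul_eq_mul]
      have e1 := not_sg M _ _ _ h1 i
      have e2 := not_sg M _ _ _ h2 i
      have : (2 * c) * rho M u⁻¹ (rho M 1 (ee s0)) i ≤ 0 :=
        mul_nonpos_of_nonneg_of_nonpos (by linarith) e1
      linarith
    have hz2 : rho M (M.simple s0) (ee t0) = 0 := by
      have : rho M u (rho M u⁻¹ (rho M (M.simple s0) (ee t0))) = 0 := by rw [hz, map_zero]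
      have e : rho M u (rho M u⁻¹ (rho M (M.simple s0) (ee t0))) =
          (rho M u * rho M u⁻¹) (rho M (M.simple s0) (ee t0)) := rfl
      rw [e, ← map_mul, mul_inv_cancel, map_one] at this
      exact this
    have := congrFun hz2 t0
    rw [hg0.2] at this
    simp at this
  have nab : rho M 1 (ee s0) ≠ rho M 1 (ee t0) := by
    intro e
    have := congrFun e s0
    rw [hab0.1, hb0.1] at this
    norm_num at this
  have nab' : rho M 1 (ee s0) ≠ - rho M 1 (ee t0) := by
    intro e
    have := congrFun e s0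
    rw [Pi.neg_apply, hab0.1, hb0.1] at this
    norm_num at this
  have nag : rho M 1 (ee s0) ≠ rho M (M.simple s0) (ee t0) := by
    intro e
    have := congrFun e t0
    rw [hab0.2, hg0.2] at this
    norm_num at this
  have nag' : rho M 1 (ee s0) ≠ - rho M (M.simple s0) (ee t0) := by
    intro e
    have := congrFun e t0
    rw [Pi.neg_apply, hab0.2, hg0.2] at this
    norm_num at this
  have nbg : rho M 1 (ee t0) ≠ rho M (M.simple s0) (ee t0) := by
    intro e
    have := congrFun e s0
    rw [hb0.1, hg0.1] at this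
    linarith
  have nbg' : rho M 1 (ee t0) ≠ - rho M (M.simple s0) (ee t0) := by
    intro e
    have := congrFun e s0
    rw [Pi.neg_apply, hb0.1, hg0.1] at this
    linarith
  let p : S → Equiv.Perm M.Group := fun s => Equiv.mulRight (M.simple s)
  let x : FreeGroup (Fin 2) := FreeGroup.of 0
  let y : FreeGroup (Fin 2) := FreeGroup.of 1
  let f : S → M.Group → FreeGroup (Fin 2) := fun s z => hexE x y (hexIdx (a z) (b z) (g z))
      (hexIdx (a (p s z)) (b (p s z)) (g (p s z)))
  have hsq : ∀ s, M.simple s * M.simple s = 1 := by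
    intro s
    have := M.toCoxeterSystem.simple_mul_simple_self s
    simpa using this
  have hend : ∀ s t, s ≠ t → M s t ≠ 0 → ∀ z, pEnd p s t (M s t) z = pEnd p t s (M s t) z := by
    intro s t hst hm z
    rw [pEnd_mulRight, pEnd_mulRight]
    rw [alt_eq_of_pow _ _ (hsq s) (hsq t)]
    have := M.toCoxeterSystem.simple_mul_simple_pow s t
    simpa using this
  have hpath : ∀ s t, s ≠ t → ∀ n, n ≤ M s t → ∀ z, pProd p f s t n z =
      hexG x y (hexIdx (a z) (b z) (g z)) (hexIdx (a (pEnd p s t n z)) (b (pEnd p s t n z))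
        (g (pEnd p s t n z))) := by
    intro s t hst n hn z
    have flip : ∀ (w : M.Group) (r : S) (j : ℕ), j < n →
        decide (sg M (rho M w (ee r)) (pEnd p s t j z)) ≠
          decide (sg M (rho M w (ee r)) (pEnd p s t (j + 1) z)) →
        decide (sg M (rho M w (ee r)) (pEnd p s t j z)) = decide (sg M (rho M w (ee r)) z) := by
      intro w r j hj hne
      rw [pEnd_mulRight] at hne ⊢
      rw [pEnd_mulRight] at hne
      rw [decide_eq_decide]
      rw [Ne, decide_eq_decide] at hne
      exact one_flip M w r s t hst z j (by omega) hne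
    apply hex_path x y p a b g
    · intro z ⟨h1, h2, h3⟩
      have := H1 z (of_decide_eq_true h1) (of_decide_eq_true h2)
      exact absurd this (of_decide_eq_false h3)
    · intro z ⟨h1, h2, h3⟩
      exact H2 z (of_decide_eq_false h1) (of_decide_eq_false h2) (of_decide_eq_true h3)
    · intro s z h
      rw [Ne, decide_eq_decide] at h
      exact ⟨decide_eq_decide.2 (step_excl M _ _ _ _ _ _ nab nab' h),
        decide_eq_decide.2 (step_excl M _ _ _ _ _ _ nag nag' h)⟩
    · intro s z h
      rw [Ne, decide_eq_decide] at h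
      refine ⟨decide_eq_decide.2 (step_excl M _ _ _ _ _ _ nab.symm ?_ h),
        decide_eq_decide.2 (step_excl M _ _ _ _ _ _ nbg nbg' h)⟩
      intro e
      exact nab' (by rw [e, neg_neg])
    · intro s z h
      rw [Ne, decide_eq_decide] at h
      refine ⟨decide_eq_decide.2 (step_excl M _ _ _ _ _ _ nag.symm ?_ h),
        decide_eq_decide.2 (step_excl M _ _ _ _ _ _ nbg.symm ?_ h)⟩
      · intro e
        exact nag' (by rw [e, neg_neg])
      · intro e
        exact nbg' (by rw [e, neg_neg])
    · intro j hj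
      exact flip 1 s0 j hj
    · intro j hj
      exact flip 1 t0 j hj
    · intro j hj
      exact flip (M.simple s0) t0 j hj
  have hprod : ∀ s t, s ≠ t → M s t ≠ 0 → ∀ z,
      pProd p f s t (M s t) z = pProd p f t s (M s t) z := by
    intro s t hst hm z
    rw [hpath s t hst _ le_rfl, hpath t s hst.symm _ (le_of_eq (M.symmetric _ _)),
      hend s t hst hm]
  obtain ⟨act, κ, hact, hκ, hmul, hone⟩ := exists_coc M p f hend hprod
  let H : Subgroup (ArtinGroup M) :=
    { carrier := {g | act g 1 = 1}
      mul_mem' := by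
        intro u v hu hv
        simp only [Set.mem_ofPred_eq] at hu hv ⊢
        rw [map_mul, Equiv.Perm.mul_apply, hv, hu]
      one_mem' := by simp
      inv_mem' := by
        intro u hu
        simp only [Set.mem_ofPred_eq] at hu ⊢
        rw [map_inv]
        exact (Equiv.Perm.inv_eq_iff_eq).2 hu.symm }
  have hH : H.FiniteIndex := by
    have : act.ker ≤ H := by
      intro u hu
      change act u 1 = 1
      rw [MonoidHom.mem_ker.1 hu]
      rfl
    have i1 : act.ker.FiniteIndex := inferInstance
    exact Subgroup.finiteIndex_of_le this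
  let ψ : H →* FreeGroup (Fin 2) :=
    { toFun := fun u => κ u.1 1
      map_one' := hone 1
      map_mul' := by
        intro u v
        change κ (u.1 * v.1) 1 = κ u.1 1 * κ v.1 1
        rw [hmul, show act v.1 1 = 1 from v.2] }
  have mem : ∀ s, PresentedGroup.of s * PresentedGroup.of s ∈ H := by
    intro s
    change act (PresentedGroup.of s * PresentedGroup.of s) 1 = 1
    rw [map_mul, hact, Equiv.Perm.mul_apply]
    change (1 * M.simple s) * M.simple s = 1
    rw [one_mul, hsq]
  have κsq : ∀ s, κ (PresentedGroup.of s * PresentedGroup.of s) 1 =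
      f s (M.simple s) * f s 1 := by
    intro s
    rw [hmul, hκ, hκ, hact]
    change f s (1 * M.simple s) * f s 1 = _
    rw [one_mul]
  have pp : ∀ s, p s (M.simple s) = 1 := by
    intro s
    exact hsq s
  have p1 : ∀ s, p s 1 = M.simple s := by
    intro s
    exact one_mul (M.simple s)
  have inv_s : ∀ s, (M.simple s)⁻¹ = M.simple s := by
    intro s
    exact inv_eq_of_mul_eq_one_left (hsq s)
  have eenn : ∀ (s i : S), (0 : ℝ) ≤ ee s i := by
    intro s i
    unfold ee
    by_cases hi : i = s
    · subst hi; simp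
    · simp [hi]
  have a1 : a 1 = true := by
    apply decide_eq_true
    intro i
    rw [ea, inv_one, map_one]
    exact eenn _ _
  have b1 : b 1 = true := by
    apply decide_eq_true
    intro i
    rw [eb, inv_one, map_one]
    exact eenn _ _
  have g1 : g 1 = true := by
    apply decide_eq_true
    exact H1 1 (of_decide_eq_true a1) (of_decide_eq_true b1)
  have as0 : a (M.simple s0) = false := by
    apply decide_eq_false
    intro hh
    have := hh s0
    rw [inv_s, ea, rho_simple, refl_apply, hss] at this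
    simp [ee] at this
  have bs : b (M.simple s0) = true := by
    apply decide_eq_true
    intro i
    rw [inv_s, eb, eg]
    simp only [Pi.add_apply, Pi.smul_apply, smul_eq_mul]
    have := eenn t0 i
    have : 0 ≤ (2 * c) * ee s0 i := mul_nonneg (by linarith) (eenn s0 i)
    linarith
  have gs : g (M.simple s0) = true := by
    apply decide_eq_true
    intro i
    rw [inv_s, rho_simple, refl_refl]
    exact eenn _ _
  have atv : refl M t0 (ee s0) = ee s0 + (2 * c) • ee t0 := by
    rw [refl_apply, hts]
    ext i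
    simp
  have btv : refl M t0 (ee t0) = - ee t0 := by
    rw [refl_apply, hss]
    ext i
    simp
    ring
  have at' : a (M.simple t0) = true := by
    apply decide_eq_true
    intro i
    rw [inv_s, ea, rho_simple, atv]
    simp only [Pi.add_apply, Pi.smul_apply, smul_eq_mul]
    have := eenn s0 i
    have : 0 ≤ (2 * c) * ee t0 i := mul_nonneg (by linarith) (eenn t0 i)
    linarith
  have bt : b (M.simple t0) = false := by
    apply decide_eq_false
    intro hh
    have := hh t0
    rw [inv_s, eb, rho_simple, btv] at this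
    simp [ee] at this
    linarith
  have gt : g (M.simple t0) = true := by
    apply decide_eq_true
    intro i
    rw [inv_s, eg, rho_simple, map_add, map_smul, atv, btv]
    simp only [Pi.add_apply, Pi.smul_apply, smul_eq_mul, Pi.neg_apply]
    have e1 := eenn s0 i
    have e2 := eenn t0 i
    have e3 : 0 ≤ (2 * c) * ee s0 i := mul_nonneg (by linarith) e1
    have e4 : 0 ≤ (4 * c * c - 1) * ee t0 i := mul_nonneg (by nlinarith) e2
    nlinarith
  have fs : f s0 (M.simple s0) * f s0 1 = x := by
    change hexE x y (hexIdx (a (M.simple s0)) (b (M.simple s0)) (g (M.simple s0)))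
      (hexIdx (a (p s0 (M.simple s0))) (b (p s0 (M.simple s0))) (g (p s0 (M.simple s0)))) *
      hexE x y (hexIdx (a 1) (b 1) (g 1))
      (hexIdx (a (p s0 1)) (b (p s0 1)) (g (p s0 1))) = x
    rw [pp, p1, a1, b1, g1, as0, bs, gs]
    unfold hexIdx hexE hexB
    rw [if_pos (by decide), if_pos (by decide), if_neg (by decide)]
    simp
  have ft : f t0 (M.simple t0) * f t0 1 = (x * y)⁻¹ := by
    change hexE x y (hexIdx (a (M.simple t0)) (b (M.simple t0)) (g (M.simple t0)))
      (hexIdx (a (p t0 (M.simple t0))) (b (p t0 (M.simple t0))) (g (p t0 (M.simple t0)))) *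
      hexE x y (hexIdx (a 1) (b 1) (g 1))
      (hexIdx (a (p t0 1)) (b (p t0 1)) (g (p t0 1))) = (x * y)⁻¹
    rw [pp, p1, a1, b1, g1, at', bt, gt]
    unfold hexIdx hexE hexB
    rw [if_neg (by decide), if_pos (by decide), if_neg (by decide), if_neg (by decide)]
    simp
  refine ⟨H, hH, ψ, ⟨_, mem s0⟩, ⟨_, mem t0⟩, ?_⟩
  change κ (PresentedGroup.of s0 * PresentedGroup.of s0) 1 *
    κ (PresentedGroup.of t0 * PresentedGroup.of t0) 1 ≠
    κ (PresentedGroup.of t0 * PresentedGroup.of t0) 1 *
    κ (PresentedGroup.of s0 * PresentedGroup.of s0) 1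
  rw [κsq, κsq, fs, ft]
  intro e
  have e2 : x * y = y * x := by
    have h3 : Commute x (x * y) := Commute.inv_right_iff.1 e
    have h4 : x * (x * y) = x * (y * x) := by rw [← mul_assoc x y x]; exact h3
    exact mul_left_cancel h4
  have : (FreeGroup.of (0 : Fin 2) * FreeGroup.of 1) ≠ FreeGroup.of (1 : Fin 2) * FreeGroup.of 0 := by
    decide
  exact this e2

end Pool.Agent.RI
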