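import Mathlib

/-! Module RI-CHEB: the numbers `cheb x k = U_{k-1}(x)` (`= sin (k θ) / sin θ` for `x = cos θ`).

`cheb_sin`: `cheb (cos θ) k * sin θ = sin (k θ)` by induction (two steps).  For `m ≥ 2`, `θ = π/m`,
`sin θ > 0` and `sin (k θ) > 0` for `0 < k < m`, `= 0` for `k = 0, m`.  For `m = 0`: `π/0 = 0` in Lean,
`cos 0 = 1`, `cheb 1 k = k`.
`cheb_cross`: induction on `j` with the recursion (`j = 0`: `cheb x 0 = 0`, `cheb x 1 = 1`).
`cheb_ne_zero`: for `x ≥ 1`: `cheb x (k+1) - cheb x k ≥ 1` by induction (together with `cheb x k ≥ 0`);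
for `x ≤ -1`: `cheb (-x) k = ± cheb x k`.
`cheb_finite`: `cheb x k` is the value at `x` of a polynomial `P_k` (same recursion in `ℝ[X]`) which is not
zero since `P_k(1) = k`; the zero set is contained in the root set. -/

namespace Pool.Agent.RI

/-- `cheb x 0 = 0`, `cheb x 1 = 1`, `cheb x (k+2) = 2 x cheb x (k+1) - cheb x k`. -/
noncomputable def cheb (x : ℝ) : ℕ → ℝ
  | 0 => 0
  | 1 => 1
  | k + 2 => 2 * x * cheb x (k + 1) - cheb x k

private theorem cheb_zero' (x : ℝ) : cheb x 0 = 0 := rfl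

private theorem cheb_one' (x : ℝ) : cheb x 1 = 1 := rfl

private theorem cheb_succ' (x : ℝ) (k : ℕ) :
    cheb x (k + 2) = 2 * x * cheb x (k + 1) - cheb x k := rfl

theorem cheb_one (k : ℕ) : cheb 1 k = k := by
  induction k using Nat.twoStepInduction with
  | zero => simp [cheb_zero']
  | one => simp [cheb_one']
  | more k h0 h1 =>
    rw [cheb_succ', h0, h1]
    push_cast
    ring

private theorem cheb_sin (t : ℝ) (k : ℕ) : cheb (Real.cos t) k * Real.sin t = Real.sin (k * t) := by
  induction k using Nat.twoStepInduction with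
  | zero => simp [cheb_zero']
  | one => simp [cheb_one']
  | more k h0 h1 =>
    have e : cheb (Real.cos t) (k + 2) * Real.sin t =
        2 * Real.cos t * (cheb (Real.cos t) (k + 1) * Real.sin t) - cheb (Real.cos t) k * Real.sin t := by
      rw [cheb_succ']; ring
    rw [e, h0, h1]
    push_cast
    have e1 : ((k : ℝ) + 2) * t = ((k : ℝ) + 1) * t + t := by ring
    have e2 : (k : ℝ) * t = ((k : ℝ) + 1) * t - t := by ring
    rw [e1, e2, Real.sin_add, Real.sin_sub]
    ring

private theorem sin_pos' {m : ℕ} (hm : 2 ≤ m) : 0 < Real.sin (Real.pi / (m : ℝ)) := by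
  have h2 : (2 : ℝ) ≤ m := by exact_mod_cast hm
  have hp := Real.pi_pos
  apply Real.sin_pos_of_pos_of_lt_pi
  · positivity
  · rw [div_lt_iff₀ (by linarith)]
    nlinarith

theorem cheb_pos (m : ℕ) (hm : m ≠ 1) (k : ℕ) (h0 : 0 < k) (hk : m = 0 ∨ k < m) :
    0 < cheb (Real.cos (Real.pi / (m : ℝ))) k := by
  rcases hk with rfl | hk
  · simp only [Nat.cast_zero, div_zero, Real.cos_zero, cheb_one]
    exact_mod_cast h0
  · have hm2 : 2 ≤ m := by omega
    have hs := sin_pos' hm2
    have h1 := cheb_sin (Real.pi / (m : ℝ)) k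
    have hmr : (0 : ℝ) < m := by exact_mod_cast (by omega : 0 < m)
    have hkr : (0 : ℝ) < k := by exact_mod_cast h0
    have hkm : (k : ℝ) < m := by exact_mod_cast hk
    have hp := Real.pi_pos
    have h2 : 0 < Real.sin (k * (Real.pi / (m : ℝ))) := by
      apply Real.sin_pos_of_pos_of_lt_pi
      · positivity
      · rw [← mul_div_assoc, div_lt_iff₀ hmr]
        nlinarith
    rw [← h1] at h2
    exact pos_of_mul_pos_left h2 hs.le

theorem cheb_top (m : ℕ) (hm : 2 ≤ m) : cheb (Real.cos (Real.pi / (m : ℝ))) m = 0 := by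
  have hs := sin_pos' hm
  have h1 := cheb_sin (Real.pi / (m : ℝ)) m
  have hmr : (m : ℝ) ≠ 0 := by
    have : m ≠ 0 := by omega
    exact_mod_cast this
  rw [mul_div_cancel₀ _ hmr, Real.sin_pi] at h1
  rcases mul_eq_zero.mp h1 with h | h
  · exact h
  · exact absurd h hs.ne'

theorem cheb_nonneg (m : ℕ) (hm : m ≠ 1) (k : ℕ) (hk : m = 0 ∨ k ≤ m) :
    0 ≤ cheb (Real.cos (Real.pi / (m : ℝ))) k := by
  rcases Nat.eq_zero_or_pos k with rfl | h0
  · simp [cheb_zero']
  · rcases hk with h | h
    · exact (cheb_pos m hm k h0 (Or.inl h)).le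
    · rcases Nat.lt_or_eq_of_le h with h | rfl
      · exact (cheb_pos m hm k h0 (Or.inr h)).le
      · rw [cheb_top k (by omega)]

theorem cheb_cross (x : ℝ) (j d : ℕ) :
    cheb x (j + d + 1) * cheb x j - cheb x (j + d) * cheb x (j + 1) = - cheb x d := by
  induction j with
  | zero => simp [cheb_zero', cheb_one']
  | succ j ih =>
    have e1 : cheb x (j + 1 + d + 1) = 2 * x * cheb x (j + d + 1) - cheb x (j + d) := by
      rw [show j + 1 + d + 1 = (j + d) + 2 by ring]
      exact cheb_succ' x (j + d)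
    have e2 : cheb x (j + 1 + 1) = 2 * x * cheb x (j + 1) - cheb x j := cheb_succ' x j
    have e3 : cheb x (j + 1 + d) = cheb x (j + d + 1) := by
      rw [show j + 1 + d = j + d + 1 by ring]
    rw [e1, e2, e3, ← ih]
    ring

private theorem cheb_ge (x : ℝ) (hx : 1 ≤ x) (k : ℕ) :
    0 ≤ cheb x k ∧ 1 ≤ cheb x (k + 1) - cheb x k := by
  induction k with
  | zero => simp [cheb_zero', cheb_one']
  | succ k ih =>
    obtain ⟨h0, h1⟩ := ih
    have h2 : 0 ≤ cheb x (k + 1) := by linarith
    refine ⟨h2, ?_⟩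
    rw [show k + 1 + 1 = k + 2 by rfl, cheb_succ']
    nlinarith

private theorem cheb_neg (x : ℝ) (k : ℕ) : cheb (-x) k = (-1) ^ (k + 1) * cheb x k := by
  induction k using Nat.twoStepInduction with
  | zero => simp [cheb_zero']
  | one => simp [cheb_one']
  | more k h0 h1 =>
    rw [cheb_succ', cheb_succ', h0, h1]
    ring

theorem cheb_ne_zero (x : ℝ) (hx : 1 ≤ |x|) (k : ℕ) (hk : 0 < k) : cheb x k ≠ 0 := by
  obtain ⟨j, rfl⟩ : ∃ j, k = j + 1 := ⟨k - 1, by omega⟩
  rcases le_abs.mp hx with h | h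
  · have := cheb_ge x h j
    intro h0
    linarith [this.1, this.2]
  · have := cheb_ge (-x) h j
    intro h0
    have h1 := cheb_neg x (j + 1)
    rw [h0, mul_zero] at h1
    linarith [this.1, this.2]

private noncomputable def chebP : ℕ → Polynomial ℝ
  | 0 => 0
  | 1 => 1
  | k + 2 => 2 * Polynomial.X * chebP (k + 1) - chebP k

private theorem eval_chebP (x : ℝ) (k : ℕ) : (chebP k).eval x = cheb x k := by
  induction k using Nat.twoStepInduction with
  | zero => simp [chebP, cheb_zero']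
  | one => simp [chebP, cheb_one']
  | more k h0 h1 =>
    rw [cheb_succ', ← h0, ← h1]
    simp [chebP]

theorem cheb_finite (k : ℕ) (hk : 0 < k) : {x : ℝ | cheb x k = 0}.Finite := by
  have hP : chebP k ≠ 0 := by
    intro h
    have h1 := eval_chebP 1 k
    rw [h, cheb_one, Polynomial.eval_zero] at h1
    have : k = 0 := by exact_mod_cast h1.symm
    omega
  refine (chebP k).roots.toFinset.finite_toSet.subset ?_
  intro x hx
  rw [Finset.mem_coe, Multiset.mem_toFinset, Polynomial.mem_roots hP, Polynomial.IsRoot.def,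
    eval_chebP]
  exact hx

end Pool.Agent.RI
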