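import Pool.Agent.RI.Defs

/-! Module RI-COC: homomorphisms out of the Artin group from cocycles on an action.

The generators act by permutations `p s` of `X`; `f s x ∈ T` is attached to the step
`x → p s x`.  `pEnd p s t n x` is the end of the path `x, p s x, p t (p s x), …` (`n` steps, generators
alternating, `s` first), `pProd` the product of the attached elements (later steps on the left).

`exists_coc`.  Let `stepP (p s) (f s)` be the permutation `(x, h) ↦ (p s x, f s x * h)` of `X × T`.
`alt (step s) (step t) m` applied to `(x, h)` applies the LAST letter first, so it is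
`(pEnd p l l' m x, pProd p f l l' m x * h)` with `(l, l') = (s, t)` for odd `m`, `(t, s)` for even `m`
(induction with `pEnd_succ`, `pProd_succ`).  By the hypotheses the braid relations hold, so
`PresentedGroup.toGroup` gives `Θ : ArtinGroup M →* Equiv.Perm (X × T)`, and similarly `act` on `X`.
`κ g x = (Θ g (x, 1)).2`; by induction on `g` (`Θ g` commutes with right multiplications on `T`,
`(Θ g y).1 = act g y.1`; these hold for generators and are closed under products and inverses)
`Θ g (x, h) = (act g x, κ g x * h)`. -/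

namespace Pool.Agent.RI

def pEnd {S X : Type} (p : S → Equiv.Perm X) : S → S → ℕ → X → X
  | _, _, 0, x => x
  | s, t, n + 1, x => pEnd p t s n (p s x)

def pProd {S X T : Type} [Group T] (p : S → Equiv.Perm X) (f : S → X → T) : S → S → ℕ → X → T
  | _, _, 0, _ => 1
  | s, t, n + 1, x => pProd p f t s n (p s x) * f s x

theorem pEnd_succ {S X : Type} (p : S → Equiv.Perm X) (s t : S) (n : ℕ) (x : X) :
    pEnd p s t (n + 1) x = p (if Even n then s else t) (pEnd p s t n x) := by
  induction n generalizing s t x with
  | zero => simp [pEnd]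
  | succ n ih =>
    have h1 : pEnd p s t (n + 1 + 1) x = pEnd p t s (n + 1) (p s x) := rfl
    have h2 : pEnd p s t (n + 1) x = pEnd p t s n (p s x) := rfl
    rw [h1, ih, h2]
    by_cases h : Even n
    · have h' : ¬ Even (n + 1) := by simpa [Nat.even_add_one] using h
      rw [if_pos h, if_neg h']
    · have h' : Even (n + 1) := by simpa [Nat.even_add_one] using h
      rw [if_neg h, if_pos h']

theorem pProd_succ {S X T : Type} [Group T] (p : S → Equiv.Perm X) (f : S → X → T) (s t : S) (n : ℕ)
    (x : X) : pProd p f s t (n + 1) x =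
      f (if Even n then s else t) (pEnd p s t n x) * pProd p f s t n x := by
  induction n generalizing s t x with
  | zero => simp [pEnd, pProd]
  | succ n ih =>
    have h1 : pProd p f s t (n + 1 + 1) x = pProd p f t s (n + 1) (p s x) * f s x := rfl
    have h2 : pEnd p s t (n + 1) x = pEnd p t s n (p s x) := rfl
    have h3 : pProd p f s t (n + 1) x = pProd p f t s n (p s x) * f s x := rfl
    rw [h1, ih, h2, h3, mul_assoc]
    by_cases h : Even n
    · have h' : ¬ Even (n + 1) := by simpa [Nat.even_add_one] using h
      rw [if_pos h, if_neg h']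
    · have h' : Even (n + 1) := by simpa [Nat.even_add_one] using h
      rw [if_neg h, if_pos h']

/-- the permutation `(x, h) ↦ (p s x, f s x * h)` -/
private def stepP {X T : Type} [Group T] (q : Equiv.Perm X) (f : X → T) : Equiv.Perm (X × T) where
  toFun y := (q y.1, f y.1 * y.2)
  invFun y := (q.symm y.1, (f (q.symm y.1))⁻¹ * y.2)
  left_inv y := by simp
  right_inv y := by simp

private theorem stepP_apply {X T : Type} [Group T] (q : Equiv.Perm X) (f : X → T) (x : X) (h : T) :
    stepP q f (x, h) = (q x, f x * h) := rfl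

private theorem alt_stepP {S X T : Type} [Group T] (p : S → Equiv.Perm X) (f : S → X → T)
    (s t : S) (m : ℕ) (x : X) (h : T) :
    alt (stepP (p s) (f s)) (stepP (p t) (f t)) m (x, h) =
      (pEnd p (if Even m then t else s) (if Even m then s else t) m x,
        pProd p f (if Even m then t else s) (if Even m then s else t) m x * h) := by
  induction m generalizing s t with
  | zero => simp [alt, pEnd, pProd]
  | succ m ih =>
    have h1 : alt (stepP (p s) (f s)) (stepP (p t) (f t)) (m + 1) (x, h) =
        stepP (p s) (f s) (alt (stepP (p t) (f t)) (stepP (p s) (f s)) m (x, h)) := rfl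
    rw [h1, ih, stepP_apply]
    by_cases hm : Even m
    · have h' : ¬ Even (m + 1) := by simpa [Nat.even_add_one] using hm
      rw [if_pos hm, if_pos hm, if_neg h', if_neg h', pEnd_succ, pProd_succ, if_pos hm, mul_assoc]
    · have h' : Even (m + 1) := by simpa [Nat.even_add_one] using hm
      rw [if_neg hm, if_neg hm, if_pos h', if_pos h', pEnd_succ, pProd_succ, if_neg hm, mul_assoc]

private theorem alt_perm {S X : Type} (p : S → Equiv.Perm X) (s t : S) (m : ℕ) (x : X) :
    alt (p s) (p t) m x = pEnd p (if Even m then t else s) (if Even m then s else t) m x := by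
  induction m generalizing s t with
  | zero => simp [alt, pEnd]
  | succ m ih =>
    have h1 : alt (p s) (p t) (m + 1) x = p s (alt (p t) (p s) m x) := rfl
    rw [h1, ih]
    by_cases hm : Even m
    · have h' : ¬ Even (m + 1) := by simpa [Nat.even_add_one] using hm
      rw [if_pos hm, if_pos hm, if_neg h', if_neg h', pEnd_succ, if_pos hm]
    · have h' : Even (m + 1) := by simpa [Nat.even_add_one] using hm
      rw [if_neg hm, if_neg hm, if_pos h', if_pos h', pEnd_succ, if_neg hm]

private theorem map_alt' {G H : Type*} [Monoid G] [Monoid H] (φ : G →* H) (a b : G) (n : ℕ) :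
    φ (alt a b n) = alt (φ a) (φ b) n := by
  induction n generalizing a b with
  | zero => simp [alt]
  | succ n ih =>
    have h1 : alt a b (n + 1) = a * alt b a n := rfl
    have h2 : alt (φ a) (φ b) (n + 1) = φ a * alt (φ b) (φ a) n := rfl
    rw [h1, h2, map_mul, ih]

private theorem rels_ok {S : Type} (M : CoxeterMatrix S) {G : Type} [Group G] (F : S → G)
    (h : ∀ s t, s ≠ t → M s t ≠ 0 → alt (F s) (F t) (M s t) = alt (F t) (F s) (M s t)) :
    ∀ r ∈ artinRels M, FreeGroup.lift F r = 1 := by
  rintro r ⟨s, t, hst, hM, rfl⟩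
  rw [map_mul, map_inv, map_alt', map_alt', FreeGroup.lift_apply_of, FreeGroup.lift_apply_of,
    h s t hst hM, mul_inv_cancel]

theorem exists_coc {S X T : Type} [Group T] (M : CoxeterMatrix S) (p : S → Equiv.Perm X)
    (f : S → X → T)
    (hend : ∀ s t, s ≠ t → M s t ≠ 0 → ∀ x, pEnd p s t (M s t) x = pEnd p t s (M s t) x)
    (hprod : ∀ s t, s ≠ t → M s t ≠ 0 → ∀ x, pProd p f s t (M s t) x = pProd p f t s (M s t) x) :
    ∃ (act : ArtinGroup M →* Equiv.Perm X) (κ : ArtinGroup M → X → T),
      (∀ s, act (PresentedGroup.of s) = p s) ∧ (∀ s x, κ (PresentedGroup.of s) x = f s x) ∧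
      (∀ g h x, κ (g * h) x = κ g (act h x) * κ h x) ∧ ∀ x, κ 1 x = 1 := by
  have hA : ∀ s t, s ≠ t → M s t ≠ 0 → alt (p s) (p t) (M s t) = alt (p t) (p s) (M s t) := by
    intro s t hst hM
    ext x
    rw [alt_perm, alt_perm]
    by_cases hm : Even (M s t)
    · simp only [if_pos hm]
      exact (hend s t hst hM x).symm
    · simp only [if_neg hm]
      exact hend s t hst hM x
  have hB : ∀ s t, s ≠ t → M s t ≠ 0 →
      alt (stepP (p s) (f s)) (stepP (p t) (f t)) (M s t) =
      alt (stepP (p t) (f t)) (stepP (p s) (f s)) (M s t) := by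
    intro s t hst hM
    apply Equiv.ext
    rintro ⟨x, h⟩
    rw [alt_stepP, alt_stepP]
    by_cases hm : Even (M s t)
    · simp only [if_pos hm]
      rw [hend s t hst hM x, hprod s t hst hM x]
    · simp only [if_neg hm]
      rw [hend s t hst hM x, hprod s t hst hM x]
  let act : ArtinGroup M →* Equiv.Perm X := PresentedGroup.toGroup (rels_ok M p hA)
  let Θ : ArtinGroup M →* Equiv.Perm (X × T) :=
    PresentedGroup.toGroup (rels_ok M (fun s => stepP (p s) (f s)) hB)
  have hact : ∀ s, act (PresentedGroup.of s) = p s := fun s => PresentedGroup.toGroup.of _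
  have hΘ : ∀ s, Θ (PresentedGroup.of s) = stepP (p s) (f s) := fun s => PresentedGroup.toGroup.of _
  have key : ∀ g : ArtinGroup M, ∀ x h, Θ g (x, h) = (act g x, (Θ g (x, 1)).2 * h) := by
    intro g
    induction g using PresentedGroup.induction_on with
    | _ w =>
      induction w using FreeGroup.induction_on with
      | C1 => intro x h; simp
      | of s =>
        intro x h
        change Θ (PresentedGroup.of s) (x, h) = (act (PresentedGroup.of s) x,
          (Θ (PresentedGroup.of s) (x, 1)).2 * h)
        rw [hact, hΘ, stepP_apply, stepP_apply, mul_one]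
      | inv_of s ih =>
        intro x h
        rw [map_inv, map_inv, map_inv]
        set F := Θ (PresentedGroup.mk (artinRels M) (FreeGroup.of s)) with hF
        set a := act (PresentedGroup.mk (artinRels M) (FreeGroup.of s)) with ha
        have h1 : ∀ k : T, F⁻¹ (x, k) = (a⁻¹ x, ((F (a⁻¹ x, 1)).2)⁻¹ * k) := by
          intro k
          rw [Equiv.Perm.inv_eq_iff_eq, ih]
          simp
        rw [h1 h, h1 1, mul_one]
      | mul g₁ g₂ ih₁ ih₂ =>
        intro x h
        rw [map_mul, map_mul, map_mul, Equiv.Perm.mul_apply, Equiv.Perm.mul_apply,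
          Equiv.Perm.mul_apply, ih₂ x h, ih₁, ih₂ x 1, ih₁ _ (_ * 1)]
        simp [mul_assoc]
  refine ⟨act, fun g x => (Θ g (x, 1)).2, hact, ?_, ?_, ?_⟩
  · intro s x
    change (Θ (PresentedGroup.of s) (x, 1)).2 = f s x
    rw [hΘ, stepP_apply, mul_one]
  · intro g h x
    change (Θ (g * h) (x, 1)).2 = (Θ g (act h x, 1)).2 * (Θ h (x, 1)).2
    rw [map_mul, Equiv.Perm.mul_apply, key h x 1, key g, mul_one]
  · intro x
    change (Θ 1 (x, 1)).2 = 1
    simp

/-- In a group acting on itself by right multiplications. -/
theorem pEnd_mulRight {S Q : Type} [Group Q] (σ : S → Q) (s t : S) (n : ℕ) (x : Q) :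
    pEnd (fun s => Equiv.mulRight (σ s)) s t n x = x * alt (σ s) (σ t) n := by
  induction n generalizing s t x with
  | zero => simp [pEnd, alt]
  | succ n ih =>
    have h1 : pEnd (fun s => Equiv.mulRight (σ s)) s t (n + 1) x =
        pEnd (fun s => Equiv.mulRight (σ s)) t s n (x * σ s) := rfl
    have h2 : alt (σ s) (σ t) (n + 1) = σ s * alt (σ t) (σ s) n := rfl
    rw [h1, ih, h2, mul_assoc]

private theorem alt_even {Q : Type} [Group Q] (a b : Q) (k : ℕ) : alt a b (2 * k) = (a * b) ^ k := by
  induction k with
  | zero => simp [alt]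
  | succ k ih =>
    have h1 : alt a b (2 * (k + 1)) = a * (b * alt a b (2 * k)) := rfl
    rw [h1, ih, pow_succ', mul_assoc]

private theorem alt_odd {Q : Type} [Group Q] (a b : Q) (k : ℕ) :
    alt a b (2 * k + 1) = (a * b) ^ k * a := by
  induction k with
  | zero => simp [alt]
  | succ k ih =>
    have h1 : alt a b (2 * (k + 1) + 1) = a * (b * alt a b (2 * k + 1)) := rfl
    rw [h1, ih, pow_succ']
    simp only [mul_assoc]

/-- If `(a b) ^ m = 1`, `a² = b² = 1` then the two alternating products of length `m` agree. -/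
theorem alt_eq_of_pow {Q : Type} [Group Q] (a b : Q) (ha : a * a = 1) (hb : b * b = 1) (m : ℕ)
    (h : (a * b) ^ m = 1) : alt a b m = alt b a m := by
  have ha' : a⁻¹ = a := inv_eq_of_mul_eq_one_left ha
  have hb' : b⁻¹ = b := inv_eq_of_mul_eq_one_left hb
  have hba : (a * b)⁻¹ = b * a := by rw [mul_inv_rev, ha', hb']
  rcases Nat.even_or_odd' m with ⟨k, rfl | rfl⟩
  · rw [alt_even, alt_even, ← hba, inv_pow]
    rw [two_mul, pow_add] at h
    exact eq_inv_of_mul_eq_one_left h
  · rw [alt_odd, alt_odd, ← hba, inv_pow]
    have h1 : (a * b) ^ k * a * (b * (a * b) ^ k) = 1 := by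
      rw [← h, show 2 * k + 1 = k + (1 + k) by ring, pow_add, pow_add, pow_one]
      simp only [mul_assoc]
    rw [eq_inv_of_mul_eq_one_left h1, mul_inv_rev, hb']

end Pool.Agent.RI
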