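import Pool.Agent.RI.Defs

/-! Module RI-CRT: independence of homomorphisms onto non-abelian simple groups.

Proof. (1) Let `s` be a finite set of indices and `j ∉ s`.  Claim: every element of `T j` is `f j y`
for some `y` with `f i y = 1` for all `i ∈ s`.  Induction on `s`; `s = ∅`: surjectivity.
Step `s ∪ {i}`, `i ≠ j`: the image `C` of `ker (f i)` under `f j` is normal in `T j` (as `f j` is
onto).  It is not trivial: otherwise `ker (f i) ≤ ker (f j)`; the image of `ker (f j)` under `f i`
is normal in `T i`; if it is trivial then the two kernels are equal, a contradiction; if it is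
everything then every `x : K` is `u * v` with `u ∈ ker (f j)`, `v ∈ ker (f i) ≤ ker (f j)`, so
`f j` is trivial, a contradiction.  So `C = ⊤`.  Take `a b : T j` not commuting, `a = f j y` with
`y` from the induction hypothesis, `b = f j z` with `f i z = 1`; then `y z y⁻¹ z⁻¹` is killed by all
`f i'`, `i' ∈ s ∪ {i}`, and has nontrivial image in `T j`; the set of all `f j w`, `w` killed by the
`f i'`, `i' ∈ s ∪ {i}`, is a normal subgroup of `T j` which is not trivial, so it is `⊤`.
(2) Induction on a finite set `s`: there is `y` with `f i y = t i` for `i ∈ s`: for a new `i` multiply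
the old `y` by `z` with `f i z = (f i y)⁻¹ * t i` and `f j z = 1` for `j ∈ s`, from (1).  Finally `s = univ`. -/

namespace Pool.Agent.RI

section

variable {K : Type*} [Group K] {ι : Type*} {T : ι → Type*} [∀ i, Group (T i)]
  (f : ∀ i, K →* T i)

/-- the common kernel of the homomorphisms of `s` -/
private def cker (s : Finset ι) : Subgroup K where
  carrier := {y | ∀ i ∈ s, f i y = 1}
  mul_mem' := by
    intro a b ha hb i hi
    rw [map_mul, ha i hi, hb i hi, mul_one]
  one_mem' := by
    intro i _
    exact map_one _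
  inv_mem' := by
    intro a ha i hi
    rw [map_inv, ha i hi, inv_one]

private theorem mem_cker {s : Finset ι} {y : K} : y ∈ cker f s ↔ ∀ i ∈ s, f i y = 1 := Iff.rfl

private theorem cker_normal (s : Finset ι) : (cker f s).Normal := by
  refine ⟨fun n hn g i hi => ?_⟩
  rw [map_mul, map_mul, map_inv, hn i hi, mul_one, mul_inv_cancel]

private theorem map_ker_eq_top [∀ i, IsSimpleGroup (T i)] (hT : ∀ i, ∃ a b : T i, a * b ≠ b * a)
    (hf : ∀ i, Function.Surjective (f i)) (hker : ∀ i j, i ≠ j → (f i).ker ≠ (f j).ker)
    {i j : ι} (hij : i ≠ j) : (f i).ker.map (f j) = ⊤ := by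
  have hn : ((f i).ker.map (f j)).Normal := Subgroup.Normal.map inferInstance (f j) (hf j)
  rcases hn.eq_bot_or_eq_top with h | h
  · exfalso
    have h1 : (f i).ker ≤ (f j).ker := (Subgroup.map_eq_bot_iff _).1 h
    have hn2 : ((f j).ker.map (f i)).Normal := Subgroup.Normal.map inferInstance (f i) (hf i)
    rcases hn2.eq_bot_or_eq_top with h2 | h2
    · exact hker i j hij (le_antisymm h1 ((Subgroup.map_eq_bot_iff _).1 h2))
    · have h3 : ∀ x, f j x = 1 := by
        intro x
        have hx : f i x ∈ (f j).ker.map (f i) := by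
          rw [h2]
          trivial
        obtain ⟨u, hu, hux⟩ := hx
        have h4 : u⁻¹ * x ∈ (f i).ker := by
          rw [MonoidHom.mem_ker, map_mul, map_inv, hux, inv_mul_cancel]
        have h5 := MonoidHom.mem_ker.1 (h1 h4)
        rw [map_mul, map_inv, MonoidHom.mem_ker.1 hu, inv_one, one_mul] at h5
        exact h5
      obtain ⟨a, b, hab⟩ := hT j
      obtain ⟨x, rfl⟩ := hf j a
      obtain ⟨y, rfl⟩ := hf j b
      exact hab (by rw [h3 x, h3 y])
  · exact h

private theorem map_cker_eq_top [DecidableEq ι] [∀ i, IsSimpleGroup (T i)]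
    (hT : ∀ i, ∃ a b : T i, a * b ≠ b * a)
    (hf : ∀ i, Function.Surjective (f i)) (hker : ∀ i j, i ≠ j → (f i).ker ≠ (f j).ker)
    (s : Finset ι) : ∀ j ∉ s, (cker f s).map (f j) = ⊤ := by
  induction s using Finset.induction_on with
  | empty =>
    intro j _
    rw [eq_top_iff]
    intro a _
    obtain ⟨x, rfl⟩ := hf j a
    exact ⟨x, fun i hi => absurd hi (Finset.notMem_empty i), rfl⟩
  | insert i s _ ih =>
    intro j hj
    rw [Finset.mem_insert, not_or] at hj
    have hC := map_ker_eq_top f hT hf hker (Ne.symm hj.1)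
    have hn : ((cker f (insert i s)).map (f j)).Normal :=
      Subgroup.Normal.map (cker_normal f _) (f j) (hf j)
    rcases hn.eq_bot_or_eq_top with h | h
    · exfalso
      obtain ⟨a, b, hab⟩ := hT j
      have ha : a ∈ (cker f s).map (f j) := by
        rw [ih j hj.2]
        trivial
      have hb : b ∈ (f i).ker.map (f j) := by
        rw [hC]
        trivial
      obtain ⟨y, hy, rfl⟩ := ha
      obtain ⟨z, hz, rfl⟩ := hb
      have hw : y * z * y⁻¹ * z⁻¹ ∈ cker f (insert i s) := by
        intro k hk
        rcases Finset.mem_insert.1 hk with rfl | hk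
        · simp only [map_mul, map_inv, MonoidHom.mem_ker.1 hz]
          group
        · simp only [map_mul, map_inv, hy k hk]
          group
      have h2 := (Subgroup.map_eq_bot_iff _).1 h hw
      rw [MonoidHom.mem_ker] at h2
      simp only [map_mul, map_inv] at h2
      refine hab ?_
      rw [mul_inv_eq_one] at h2
      rw [mul_inv_eq_iff_eq_mul] at h2
      exact h2
    · exact h

end

theorem pi_surj {K : Type*} [Group K] {ι : Type*} [Finite ι] (T : ι → Type*) [∀ i, Group (T i)]
    [∀ i, IsSimpleGroup (T i)] (hT : ∀ i, ∃ a b : T i, a * b ≠ b * a) (f : ∀ i, K →* T i)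
    (hf : ∀ i, Function.Surjective (f i)) (hker : ∀ i j, i ≠ j → (f i).ker ≠ (f j).ker)
    (t : ∀ i, T i) : ∃ y : K, ∀ i, f i y = t i := by
  classical
  haveI := Fintype.ofFinite ι
  have key : ∀ s : Finset ι, ∃ y : K, ∀ i ∈ s, f i y = t i := by
    intro s
    induction s using Finset.induction_on with
    | empty => exact ⟨1, fun i hi => absurd hi (Finset.notMem_empty i)⟩
    | insert i s hi ih =>
      obtain ⟨y, hy⟩ := ih
      have h1 : (f i y)⁻¹ * t i ∈ (cker f s).map (f i) := by
        rw [map_cker_eq_top f hT hf hker s i hi]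
        trivial
      obtain ⟨z, hz, hzi⟩ := h1
      refine ⟨y * z, fun k hk => ?_⟩
      rcases Finset.mem_insert.1 hk with rfl | hk
      · rw [map_mul, hzi, mul_inv_cancel_left]
      · rw [map_mul, hy k hk, hz k hk, mul_one]
  obtain ⟨y, hy⟩ := key Finset.univ
  exact ⟨y, fun i => hy i (Finset.mem_univ i)⟩

end Pool.Agent.RI
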