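import Mathlib

/-! Project RI (MP_b326e6_al): definitions used in the final statement. -/

namespace Pool.Agent.RI

/-- `x` and `y` are `φ`-twisted conjugate: `y = g x φ(g)⁻¹` for some `g`. -/
def TwConj {G : Type*} [Group G] (φ : G ≃* G) (x y : G) : Prop := ∃ g : G, y = g * x * (φ g)⁻¹

/-- `R(φ) = ∞`: there are infinitely many `φ`-twisted conjugacy classes
(`TwConj φ` is an equivalence relation, see `twConj_equivalence`). -/
def InfReid {G : Type*} [Group G] (φ : G ≃* G) : Prop := Infinite (Quot (TwConj φ))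

/-- property `R_∞`. -/
def PropRInf (G : Type*) [Group G] : Prop := ∀ φ : G ≃* G, InfReid φ

theorem twConj_equivalence {G : Type*} [Group G] (φ : G ≃* G) : Equivalence (TwConj φ) where
  refl x := ⟨1, by simp⟩
  symm := by
    rintro x y ⟨g, rfl⟩
    exact ⟨g⁻¹, by simp; group⟩
  trans := by
    rintro x y z ⟨g, rfl⟩ ⟨h, rfl⟩
    exact ⟨h * g, by simp; group⟩

/-- `G` is large: some subgroup `H` of finite index has a homomorphism to a free group with
non-commutative image. -/
def Large (G : Type) [Group G] : Prop :=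
  ∃ H : Subgroup G, H.FiniteIndex ∧
    ∃ ψ : H →* FreeGroup (Fin 2), ∃ a b : H, ψ a * ψ b ≠ ψ b * ψ a

/-- the alternating product `s t s ⋯` with `n` factors. -/
def alt {G : Type*} [Monoid G] (s t : G) : ℕ → G
  | 0 => 1
  | n + 1 => s * alt t s n

/-- the relators `(s t s ⋯) (t s t ⋯)⁻¹`, both words of length `m_st`, for `s ≠ t` with `m_st < ∞`
(in Mathlib's `CoxeterMatrix` the value `∞` is written as `0`). -/
def artinRels {S : Type} (M : CoxeterMatrix S) : Set (FreeGroup S) :=
  {r | ∃ s t : S, s ≠ t ∧ M s t ≠ 0 ∧ r = alt (FreeGroup.of s) (FreeGroup.of t) (M s t) *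
    (alt (FreeGroup.of t) (FreeGroup.of s) (M s t))⁻¹}

/-- the Artin group `A_M`. -/
abbrev ArtinGroup {S : Type} (M : CoxeterMatrix S) : Type := PresentedGroup (artinRels M)

end Pool.Agent.RI
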