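import Mathlib

namespace Pool.Agent.RI

/-- A finitely generated group has finitely many homomorphisms to a finite group. -/
theorem finite_hom (K A : Type*) [Group K] [Group.FG K] [Group A] [Finite A] : Finite (K →* A) := by
  obtain ⟨s, hs, hf⟩ := Group.fg_iff.1 ‹Group.FG K›
  have : Finite s := hf
  apply Finite.of_injective (fun (f : K →* A) (x : s) => f x)
  intro f g hfg
  apply MonoidHom.eq_of_eqOn_dense hs
  intro x hx
  exact congrFun hfg ⟨x, hx⟩

end Pool.Agent.RI
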