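import Pool.Agent.RI.Defs
import Pool.Agent.RI.FinHom

/-! Module RI-FIN: subgroups of finite index.

`infReid_of_restrict`.  Suppose `Quot (TwConj φ)` is finite.  The map
`Quot (TwConj φ₀) → Quot (TwConj φ)` induced by the inclusion has finite fibres: fix `h : H`; if
`h' = g * h * (φ g)⁻¹` and `h'' = g' * h * (φ g')⁻¹` (`h', h'' : H`) with `g' = x * g`, `x ∈ H`, then
`h'' = x * h' * (φ x)⁻¹`, so `h'` and `h''` are `φ₀`-conjugate; hence the fibre over the class of `h`
injects into the set of right cosets of `H`, which is finite.  So `Quot (TwConj φ₀)` is finite.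
(`Finite.of_finite_fibers` or similar.)

`exists_char`.  There are only finitely many homomorphisms `f : G →* Equiv.Perm (G ⧸ H)` (`G` is
finitely generated, the target is finite: `finite_hom`).  `H0 = ⨅ f, f.ker` has finite index, is characteristic
(`f ↦ f.comp φ` permutes the homomorphisms) and is contained in the kernel of the action on `G ⧸ H`,
which is `≤ H` (`Subgroup.normalCore_eq_ker`, `Subgroup.normalCore_le`). -/

namespace Pool.Agent.RI

theorem infReid_of_restrict {G : Type*} [Group G] (H : Subgroup G) [H.FiniteIndex] (φ : G ≃* G)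
    (φ₀ : H ≃* H) (h0 : ∀ x : H, (φ₀ x : G) = φ x) (h : InfReid φ₀) : InfReid φ := by
  by_contra hfin
  unfold InfReid at *
  rw [not_infinite_iff_finite] at hfin
  have key : ∀ x : Quot (TwConj φ₀), ∃ g : G, ((x.out : H) : G) =
      g * (Quot.mk (TwConj φ) ((x.out : H) : G)).out * (φ g)⁻¹ := by
    intro x
    have h1 : Quot.mk (TwConj φ) ((Quot.mk (TwConj φ) ((x.out : H) : G)).out) =
        Quot.mk (TwConj φ) ((x.out : H) : G) := Quot.out_eq _
    exact ((twConj_equivalence φ).quot_mk_eq_iff _ _).1 h1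
  choose g hg using key
  have inj : Function.Injective (fun x : Quot (TwConj φ₀) =>
      (Quot.mk (TwConj φ) ((x.out : H) : G), (((g x)⁻¹ : G) : G ⧸ H))) := by
    intro x y hxy
    obtain ⟨h1, h2⟩ := Prod.ext_iff.1 hxy
    simp only at h1 h2
    rw [QuotientGroup.eq, inv_inv] at h2
    rw [← Quot.out_eq x, ← Quot.out_eq y]
    symm
    refine Quot.sound ⟨⟨g x * (g y)⁻¹, h2⟩, ?_⟩
    apply Subtype.ext
    have hx := hg x
    have hy := hg y
    rw [h1] at hx
    have hy' : (Quot.mk (TwConj φ) ((y.out : H) : G)).out = (g y)⁻¹ * ((y.out : H) : G) * φ (g y) := by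
      rw [eq_mul_inv_iff_mul_eq] at hy
      rw [mul_assoc, hy]
      group
    rw [hy'] at hx
    rw [Subgroup.coe_mul, Subgroup.coe_mul, Subgroup.coe_inv, h0]
    rw [hx]
    simp only [map_mul, map_inv]
    group
  have : Finite (Quot (TwConj φ₀)) := Finite.of_injective _ inj
  exact not_finite (Quot (TwConj φ₀))

theorem exists_char {G : Type*} [Group G] [Group.FG G] (H : Subgroup G) [H.FiniteIndex] :
    ∃ H0 : Subgroup G, H0 ≤ H ∧ H0.FiniteIndex ∧ H0.Characteristic := by
  have hfin : Finite (G →* Equiv.Perm (G ⧸ H)) := finite_hom _ _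
  refine ⟨⨅ f : G →* Equiv.Perm (G ⧸ H), f.ker, ?_,
    Subgroup.finiteIndex_iInf fun f => inferInstance, ?_⟩
  · refine (iInf_le _ (MulAction.toPermHom G (G ⧸ H))).trans ?_
    rw [← Subgroup.normalCore_eq_ker]
    exact H.normalCore_le
  · rw [Subgroup.characteristic_iff_le_comap]
    intro ϕ x hx
    rw [Subgroup.mem_comap, Subgroup.mem_iInf]
    intro f
    have h1 := (Subgroup.mem_iInf.1 hx) (f.comp ϕ.toMonoidHom)
    exact h1

end Pool.Agent.RI
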