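import Pool.Agent.RI.Root

/-! Module RI-FLIP: along an alternating path of length at most `m_xy` the sign of a root changes at
most once.

Proof.  `δ = rho w (ee r)`.  The sign of `δ` at `u` is the sign of the root `rho u⁻¹ δ`.  The step from
`u' = u * alt x y j` to `u * alt x y (j+1) = u' * l`, `l` the letter `x` (`j` even) or `y` (`j` odd) replaces
`rho u'⁻¹ δ` by `refl l (rho u'⁻¹ δ)`.  If the sign changes then `rho u'⁻¹ δ = ± ee l`: apply `root_flip` to
the positive one of the two (roots are `≥ 0` or `≤ 0`, `root_sign`; `- rho w (ee r) = rho (w * r) (ee r)`).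
So `δ = ± rho u (rho (alt x y j) (ee l)) = ± rho u (cheb c (j+1) • ee x + cheb c j • ee y)` by `rho_alt`.
If this happens for `i < j`, both `≤ m - 1`, then the two vectors
`(cheb c (i+1), cheb c i)`, `(cheb c (j+1), cheb c j)` are equal up to sign, so their determinant is zero;
by `cheb_cross` it is `± cheb c (j - i) ≠ 0` (`cheb_pos`), a contradiction. -/

namespace Pool.Agent.RI

variable {S : Type} [Fintype S] [DecidableEq S]

/-- the root `δ` is positive at the chamber `u`. -/
def sg (M : CoxeterMatrix S) (δ : S → ℝ) (u : M.Group) : Prop := ∀ i, 0 ≤ rho M u⁻¹ δ i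

private theorem alt_succ' {G : Type*} [Monoid G] (s t : G) (n : ℕ) :
    alt s t (n + 1) = alt s t n * (if Even n then s else t) := by
  induction n generalizing s t with
  | zero => simp [alt]
  | succ n ih =>
    have h1 : alt s t (n + 2) = s * alt t s (n + 1) := rfl
    have h2 : alt s t (n + 1) = s * alt t s n := rfl
    rw [h1, ih t s, h2, mul_assoc]
    congr 2
    by_cases h : Even n
    · have h' : ¬ Even (n + 1) := by
        rw [Nat.even_add_one]
        exact not_not.mpr h
      simp [h, h']
    · have h' : Even (n + 1) := by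
        rw [Nat.even_add_one]
        exact h
      simp [h, h']

private theorem refl_self (M : CoxeterMatrix S) (s : S) : refl M s (ee s) = - ee s := by
  rw [refl_apply, bfL_ee, M.diagonal]
  have : Real.cos (Real.pi / ((1 : ℕ) : ℝ)) = -1 := by
    rw [Nat.cast_one, div_one, Real.cos_pi]
  rw [this, neg_neg, mul_one, two_smul]
  abel

private theorem rho_inv_rho (M : CoxeterMatrix S) (u : M.Group) (v : S → ℝ) :
    rho M u⁻¹ (rho M u v) = v := by
  rw [← Module.End.mul_apply, ← map_mul, inv_mul_cancel, map_one, Module.End.one_apply]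

private theorem rho_rho_inv (M : CoxeterMatrix S) (u : M.Group) (v : S → ℝ) :
    rho M u (rho M u⁻¹ v) = v := by
  rw [← Module.End.mul_apply, ← map_mul, mul_inv_cancel, map_one, Module.End.one_apply]

private theorem simple_inv' (M : CoxeterMatrix S) (s : S) : (M.simple s)⁻¹ = M.simple s := by
  have h := M.toCoxeterSystem.inv_simple s
  rwa [CoxeterMatrix.toCoxeterSystem_simple] at h

/-- a step changes the sign of a root only if ... -/
theorem sg_step (M : CoxeterMatrix S) (w : M.Group) (r s : S) (u : M.Group)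
    (h : ¬ (sg M (rho M w (ee r)) u ↔ sg M (rho M w (ee r)) (u * M.simple s))) :
    rho M w (ee r) = rho M u (ee s) ∨ rho M w (ee r) = - rho M u (ee s) := by
  have e1 : rho M u⁻¹ (rho M w (ee r)) = rho M (u⁻¹ * w) (ee r) := by
    rw [map_mul, Module.End.mul_apply]
  have e2 : rho M (u * M.simple s)⁻¹ (rho M w (ee r)) =
      refl M s (rho M (u⁻¹ * w) (ee r)) := by
    rw [mul_inv_rev, simple_inv', map_mul, Module.End.mul_apply, e1, rho_simple]
  have e3 : refl M s (rho M (u⁻¹ * w) (ee r)) = rho M (M.simple s * (u⁻¹ * w)) (ee r) := by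
    rw [map_mul (rho M) (M.simple s) (u⁻¹ * w), Module.End.mul_apply, rho_simple]
  have hA : sg M (rho M w (ee r)) u ↔ ∀ i, 0 ≤ rho M (u⁻¹ * w) (ee r) i := by
    unfold sg
    rw [e1]
  have hB : sg M (rho M w (ee r)) (u * M.simple s) ↔
      ∀ i, 0 ≤ refl M s (rho M (u⁻¹ * w) (ee r)) i := by
    unfold sg
    rw [e2]
  by_cases h1 : ∀ i, 0 ≤ rho M (u⁻¹ * w) (ee r) i
  · by_cases h2 : ∀ i, 0 ≤ refl M s (rho M (u⁻¹ * w) (ee r)) i
    · exact absurd (by rw [hA, hB]; exact ⟨fun _ => h2, fun _ => h1⟩) h
    · left
      have h3 := root_flip M (u⁻¹ * w) r s h1 h2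
      rw [← e1] at h3
      rw [← h3, rho_rho_inv]
  · by_cases h2 : ∀ i, 0 ≤ refl M s (rho M (u⁻¹ * w) (ee r)) i
    · right
      have h3 := root_flip M (M.simple s * (u⁻¹ * w)) r s (by rw [← e3]; exact h2) (by
        rw [← e3, refl_refl]
        exact h1)
      rw [← e3] at h3
      have h4 : rho M (u⁻¹ * w) (ee r) = - ee s := by
        rw [← refl_self M s, ← h3, refl_refl]
      rw [← e1] at h4
      have h5 := congrArg (rho M u) h4
      rw [rho_rho_inv, map_neg] at h5
      exact h5
    · exact absurd (by rw [hA, hB]; exact ⟨fun h' => absurd h' h1, fun h' => absurd h' h2⟩) h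

private theorem sg_alt (M : CoxeterMatrix S) (x y : S) (w : M.Group) (r : S) (u : M.Group)
    (i : ℕ) (hi' : ¬ (sg M (rho M w (ee r)) (u * alt (M.simple x) (M.simple y) i) ↔
      sg M (rho M w (ee r)) (u * alt (M.simple x) (M.simple y) (i + 1)))) :
    rho M w (ee r) = rho M u (cheb (Real.cos (Real.pi / (M x y : ℝ))) (i + 1) • ee x +
      cheb (Real.cos (Real.pi / (M x y : ℝ))) i • ee y) ∨
    rho M w (ee r) = - rho M u (cheb (Real.cos (Real.pi / (M x y : ℝ))) (i + 1) • ee x +
      cheb (Real.cos (Real.pi / (M x y : ℝ))) i • ee y) := by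
  have e : u * alt (M.simple x) (M.simple y) (i + 1) =
      u * alt (M.simple x) (M.simple y) i * M.simple (if Even i then x else y) := by
    rw [alt_succ', mul_assoc]
    congr 2
    split_ifs <;> rfl
  rw [e] at hi'
  have h := sg_step M w r (if Even i then x else y) (u * alt (M.simple x) (M.simple y) i) hi'
  rw [map_mul, Module.End.mul_apply, rho_alt] at h
  exact h

theorem flip_once (M : CoxeterMatrix S) (x y : S) (hxy : x ≠ y) (w : M.Group) (r : S) (u : M.Group)
    (i j : ℕ) (hij : i < j) (hj : M x y = 0 ∨ j < M x y)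
    (hi' : ¬ (sg M (rho M w (ee r)) (u * alt (M.simple x) (M.simple y) i) ↔
      sg M (rho M w (ee r)) (u * alt (M.simple x) (M.simple y) (i + 1))))
    (hj' : ¬ (sg M (rho M w (ee r)) (u * alt (M.simple x) (M.simple y) j) ↔
      sg M (rho M w (ee r)) (u * alt (M.simple x) (M.simple y) (j + 1)))) : False := by
  have hi := sg_alt M x y w r u i hi'
  have hjj := sg_alt M x y w r u j hj'
  set c : ℝ := Real.cos (Real.pi / (M x y : ℝ)) with hc
  have hinj : ∀ v v' : S → ℝ, rho M u v = rho M u v' → v = v' := by
    intro v v' h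
    rw [← rho_inv_rho M u v, h, rho_inv_rho]
  have hcomb : (cheb c (i + 1) • ee x + cheb c i • ee y : S → ℝ) =
        cheb c (j + 1) • ee x + cheb c j • ee y ∨
      (cheb c (i + 1) • ee x + cheb c i • ee y : S → ℝ) =
        - (cheb c (j + 1) • ee x + cheb c j • ee y) := by
    rcases hi with hi | hi <;> rcases hjj with hjj | hjj
    · left
      exact hinj _ _ (hi.symm.trans hjj)
    · right
      apply hinj
      rw [map_neg]
      exact hi.symm.trans hjj
    · right
      apply hinj
      rw [map_neg, ← hjj, hi, neg_neg]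
    · left
      apply hinj
      have := hi.symm.trans hjj
      exact neg_injective this
  have hcx : ∀ a b : ℝ, (a • ee x + b • ee y : S → ℝ) x = a := by
    intro a b
    simp [ee, hxy]
  have hcy : ∀ a b : ℝ, (a • ee x + b • ee y : S → ℝ) y = b := by
    intro a b
    simp [ee, hxy.symm]
  have hdet : cheb c (j + 1) * cheb c i - cheb c j * cheb c (i + 1) = 0 := by
    rcases hcomb with h | h
    · have h1 := congrFun h x
      have h2 := congrFun h y
      rw [hcx, hcx] at h1
      rw [hcy, hcy] at h2
      rw [h1, h2]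
      ring
    · have h1 := congrFun h x
      have h2 := congrFun h y
      rw [Pi.neg_apply, hcx, hcx] at h1
      rw [Pi.neg_apply, hcy, hcy] at h2
      rw [h1, h2]
      ring
  have hcross := cheb_cross c i (j - i)
  have e1 : i + (j - i) = j := by omega
  rw [e1] at hcross
  have hpos := cheb_pos (M x y) (M.off_diagonal x y hxy) (j - i) (by omega) (by
    rcases hj with h | h
    · exact Or.inl h
    · right
      omega)
  rw [← hc] at hpos
  linarith

end Pool.Agent.RI
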