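import Pool.Agent.RI.Simp
import Pool.Agent.RI.FinIdx
import Pool.Agent.RI.Ns

/-! Module RI-LARGE: finitely generated large groups have property `R_∞`.

Proof.  Let `H ≤ G` be of finite index and `θ : H → FreeGroup ι` onto, `i ≠ j` in `ι` (`exists_onto_free`).
For odd `n ≥ 7` let `π_n : FreeGroup ι →* Equiv.Perm (Fin n)`, `i ↦ finRotate n`, `j ↦ swap 0 1`,
other generators `↦ 1`; it is onto (`Equiv.Perm.closure_cycle_adjacent_swap`), and
`sign (π_n w) = ε w` where `ε : FreeGroup ι →* ℤˣ` sends `j` to `-1` and all other generators to `1`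
(`n` odd: `finRotate n` is even); `ε` does not depend on `n`.  Let `H' = {h ∈ H | ε (θ h) = 1}`, of finite
index in `G`, and `H0 ≤ H'` characteristic of finite index in `G` (`exists_char`).  For `n = q + 2`, `q` a
large prime, `π_n (θ (H0))` is a normal subgroup of `S_n` (`H0` is normal in `G`, `H → S_n` is onto)
contained in `A_n`.  Regarded as a subgroup of `A_n` it is normal, so it is trivial or all of `A_n`.  It
is not trivial for `n! > [G : H0]`: otherwise `H/(H ∩ H0) → S_n` would be onto (`π_n ∘ θ` would be
constant on cosets of `H0`), giving `n! ≤ [H : H ∩ H0] ≤ [G : H0]`.  So `H0` maps onto `A_n` for all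
large `n = q + 2`, `q` prime (infinitely many primes: `Nat.exists_infinite_primes`).
`H0` is finitely generated (`Subgroup.fg_of_index_ne_zero`), so `infReid_of_alt` applies
to the restriction `φ₀` of any automorphism `φ` of `G`, and `infReid_of_restrict` finishes. -/

namespace Pool.Agent.RI

open Equiv.Perm in
private noncomputable def rotPi {ι : Type} (i j : ι) (q : ℕ) :
    FreeGroup ι →* Equiv.Perm (Fin (q + 2)) := by
  classical
  exact FreeGroup.lift (fun k => if k = i then finRotate (q + 2) else
    if k = j then Equiv.swap (0 : Fin (q + 2)) (finRotate (q + 2) 0) else 1)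

private noncomputable def signEps {ι : Type} (j : ι) : FreeGroup ι →* ℤˣ := by
  classical
  exact FreeGroup.lift (fun k => if k = j then -1 else 1)

private theorem rotPi_surj {ι : Type} (i j : ι) (hij : i ≠ j) (q : ℕ) :
    Function.Surjective (rotPi i j q) := by
  classical
  rw [← MonoidHom.range_eq_top, eq_top_iff,
    ← Equiv.Perm.closure_cycle_adjacent_swap (isCycle_finRotate (n := q)) support_finRotate 0,
    Subgroup.closure_le]
  intro x hx
  rcases hx with hx | hx
  · refine ⟨FreeGroup.of i, ?_⟩
    simp [rotPi, hx]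
  · refine ⟨FreeGroup.of j, ?_⟩
    rw [Set.mem_singleton_iff] at hx
    simp [rotPi, hx, hij.symm]

private theorem sign_rotPi {ι : Type} (i j : ι) (hij : i ≠ j) (q : ℕ) (hq : Odd q)
    (w : FreeGroup ι) : Equiv.Perm.sign (rotPi i j q w) = signEps j w := by
  classical
  have h : (Equiv.Perm.sign).comp (rotPi i j q) = signEps j := by
    apply FreeGroup.ext_hom
    intro k
    simp only [MonoidHom.comp_apply, rotPi, signEps, FreeGroup.lift_apply_of]
    by_cases hki : k = i
    · subst hki
      rw [if_pos rfl, if_neg hij, sign_finRotate]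
      have : Even (q + 2 - 1) := by
        obtain ⟨m, rfl⟩ := hq
        exact ⟨m + 1, by omega⟩
      exact this.neg_one_pow
    · by_cases hkj : k = j
      · subst hkj
        rw [if_neg hki, if_pos rfl, if_pos rfl, Equiv.Perm.sign_swap]
        intro h0
        have : (0 : Fin (q + 2)) ∉ Equiv.Perm.support (finRotate (q + 2)) := by
          rw [Equiv.Perm.notMem_support]
          exact h0.symm
        rw [support_finRotate] at this
        exact this (Finset.mem_univ _)
      · rw [if_neg hki, if_neg hkj, if_neg hkj, map_one]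
  rw [← h]
  rfl

theorem large_propRInf {G : Type} [Group G] [Group.FG G] (h : Large G) : PropRInf G := by
  classical
  obtain ⟨H, hH, ψ, hab⟩ := h
  obtain ⟨ι, i, j, hij, θ, hθ⟩ := exists_onto_free ψ hab
  set L : Subgroup H := ((signEps j).comp θ).ker with hL
  have hLfi : L.FiniteIndex := by
    rw [hL]
    infer_instance
  have hL'fi : (L.map H.subtype).FiniteIndex := by
    constructor
    rw [Subgroup.index_map_subtype]
    exact mul_ne_zero hLfi.index_ne_zero hH.index_ne_zero
  obtain ⟨H0, hH0L, hH0fi, hH0c⟩ := exists_char (L.map H.subtype)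
  have hH0H : H0 ≤ H := hH0L.trans (Subgroup.map_subtype_le L)
  intro φ
  let φ₀ : H0 ≃* H0 := (φ.subgroupMap H0).trans
    (MulEquiv.subgroupCongr (Subgroup.characteristic_iff_map_eq.mp hH0c φ))
  refine infReid_of_restrict H0 φ φ₀ (fun x => rfl) (infReid_of_alt ?_ φ₀)
  intro n
  obtain ⟨q, hq, hqp⟩ := Nat.exists_infinite_primes (n + 5 + H0.index)
  refine ⟨q, by omega, hqp, ?_⟩
  have hqodd : Odd q := hqp.odd_of_ne_two (by omega)
  let g : H →* Equiv.Perm (Fin (q + 2)) := (rotPi i j q).comp θ
  have hg : Function.Surjective g := (rotPi_surj i j hij q).comp hθ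
  let f₀ : H0 →* Equiv.Perm (Fin (q + 2)) := g.comp (Subgroup.inclusion hH0H)
  have hf₀ : ∀ x : H0, f₀ x ∈ alternatingGroup (Fin (q + 2)) := by
    intro x
    rw [Equiv.Perm.mem_alternatingGroup]
    obtain ⟨y, hy, hyx⟩ := hH0L x.2
    have hxy : Subgroup.inclusion hH0H x = y := by
      apply Subtype.ext
      exact hyx.symm
    change Equiv.Perm.sign (rotPi i j q (θ (Subgroup.inclusion hH0H x))) = 1
    rw [sign_rotPi i j hij q hqodd, hxy]
    exact hy
  refine ⟨f₀.codRestrict _ hf₀, ?_⟩
  have hrange : f₀.range = (H0.subgroupOf H).map g := by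
    ext y
    constructor
    · rintro ⟨x, rfl⟩
      exact ⟨Subgroup.inclusion hH0H x, x.2, rfl⟩
    · rintro ⟨x, hx, rfl⟩
      exact ⟨⟨x, hx⟩, rfl⟩
  have hnorm : f₀.range.Normal := by
    rw [hrange]
    have : (H0.subgroupOf H).Normal := inferInstance
    exact Subgroup.Normal.map this g hg
  have hr2 : (f₀.codRestrict _ hf₀).range = f₀.range.subgroupOf (alternatingGroup (Fin (q + 2))) := by
    ext y
    constructor
    · rintro ⟨x, rfl⟩
      exact ⟨x, rfl⟩
    · rintro ⟨x, hx⟩
      exact ⟨x, Subtype.ext hx⟩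
  have hN : (f₀.codRestrict _ hf₀).range.Normal := by
    rw [hr2]
    infer_instance
  have := alt_simple q (by omega)
  rcases hN.eq_bot_or_eq_top with h1 | h1
  · exfalso
    have hle : H0.subgroupOf H ≤ g.ker := by
      intro x hx
      have hm : (f₀.codRestrict _ hf₀) ⟨x, hx⟩ ∈ (f₀.codRestrict _ hf₀).range := ⟨_, rfl⟩
      rw [h1, Subgroup.mem_bot] at hm
      have := congrArg Subtype.val hm
      exact this
    have hdvd := Subgroup.index_dvd_of_le hle
    have hkc : g.ker.index = (q + 2).factorial := by
      rw [Subgroup.index_ker, MonoidHom.range_eq_top.mpr hg, Subgroup.card_top, Nat.card_perm,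
        Nat.card_eq_fintype_card, Fintype.card_fin]
    have hdvd2 : (H0.subgroupOf H).index ∣ H0.index := by
      have := Subgroup.relIndex_mul_index hH0H
      exact ⟨H.index, this.symm⟩
    have h2 := Nat.le_of_dvd (Nat.pos_of_ne_zero hH0fi.index_ne_zero) (hdvd.trans hdvd2)
    rw [hkc] at h2
    have := Nat.self_le_factorial (q + 2)
    omega
  · exact MonoidHom.range_eq_top.mp h1

end Pool.Agent.RI
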