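import Pool.Agent.RI.Rep

/-! Module RI-RESFIN: residual finiteness of the image of the geometric representation.

Proof.  The numbers `2 cos (π / m_st)` are integral over `ℤ` (`2 cos (π/m) = ζ + ζ⁻¹`, `ζ = exp (iπ/m)`,
`ζ^(2m) = 1`; in Mathlib: `Real.isIntegral_two_mul_cos_rat_mul_pi`), finitely many.  Let
`R0 = Algebra.adjoin ℤ {2 cos (π / m_st)} ⊆ ℝ`, a finitely generated `ℤ`-module
(`fg_adjoin_of_finite`).  Let `Λ` be the `ℤ`-submodule of `S → ℝ` of functions with values in `R0`; it is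
finitely generated and torsion-free, hence free.  `refl s` maps `Λ` to `Λ`
(`refl s v = v + (∑_t 2 cos (π/m_st) v_t) e_s`), hence so does `rho w` for all `w`
(induction; inverses are products of simple reflections).  `Λ` contains the basis `ee s`, so if
`rho w ≠ 1` there is `x ∈ Λ` (some `ee s`) with `y = rho w x - x ≠ 0`.  As `Λ` is free of finite rank,
reduce the matrices of the action modulo `n = |a| + 1`, `a ≠ 0` an entry of `A - 1`. -/

namespace Pool.Agent.RI

variable {S : Type} [Fintype S] [DecidableEq S]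

namespace ResFin

/-- the coefficient ring `ℤ[2 cos (π / m_st)]`. -/
noncomputable def R0 (M : CoxeterMatrix S) : Subalgebra ℤ ℝ :=
  Algebra.adjoin ℤ (Set.range fun p : S × S => 2 * Real.cos (Real.pi / (M p.1 p.2 : ℝ)))

omit [DecidableEq S] in
theorem R0_fg (M : CoxeterMatrix S) : (Subalgebra.toSubmodule (R0 M)).FG := by
  refine fg_adjoin_of_finite (Set.finite_range _) ?_
  rintro _ ⟨p, rfl⟩
  have h := Real.isIntegral_two_mul_cos_rat_mul_pi (1 / (M p.1 p.2 : ℚ))
  have e : (2 * Real.cos (Real.pi / (M p.1 p.2 : ℝ)) : ℝ)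
      = 2 * Real.cos (((1 / (M p.1 p.2 : ℚ) : ℚ) : ℝ) * Real.pi) := by
    congr 2
    push_cast
    ring
  show IsIntegral ℤ (2 * Real.cos (Real.pi / (M p.1 p.2 : ℝ)))
  rw [e]
  exact h

/-- the lattice. -/
noncomputable def Lam (M : CoxeterMatrix S) : Submodule ℤ (S → ℝ) :=
  Submodule.pi Set.univ (fun _ => Subalgebra.toSubmodule (R0 M))

omit [Fintype S] [DecidableEq S] in
theorem mem_Lam (M : CoxeterMatrix S) (v : S → ℝ) : v ∈ Lam M ↔ ∀ s, v s ∈ R0 M := by
  simp [Lam, Submodule.mem_pi]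

omit [DecidableEq S] in
theorem Lam_fg (M : CoxeterMatrix S) : (Lam M).FG :=
  Submodule.fg_pi (fun _ => R0_fg M)

omit [Fintype S] in
theorem ee_mem (M : CoxeterMatrix S) (s : S) : (ee s : S → ℝ) ∈ Lam M := by
  rw [mem_Lam]
  intro t
  unfold ee
  by_cases h : t = s
  · subst h
    rw [Pi.single_eq_same]
    exact one_mem _
  · rw [Pi.single_eq_of_ne h]
    exact zero_mem _

theorem refl_mem (M : CoxeterMatrix S) (s : S) (v : S → ℝ) (hv : v ∈ Lam M) :
    refl M s v ∈ Lam M := by
  rw [mem_Lam] at hv ⊢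
  intro t
  rw [refl_apply]
  have h1 : -(2 * bfL M s v) ∈ R0 M := by
    have : -(2 * bfL M s v) = ∑ t, (2 * Real.cos (Real.pi / (M s t : ℝ))) * v t := by
      simp only [bfL, LinearMap.neg_apply, LinearMap.sum_apply, LinearMap.smul_apply,
        LinearMap.proj_apply, smul_eq_mul]
      rw [mul_neg, neg_neg, Finset.mul_sum]
      refine Finset.sum_congr rfl fun t _ => ?_
      ring
    rw [this]
    refine sum_mem fun t _ => mul_mem ?_ (hv t)
    exact Algebra.subset_adjoin ⟨(s, t), rfl⟩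
  have h2 : (v - (2 * bfL M s v) • ee s) t = v t + (-(2 * bfL M s v)) * (ee s : S → ℝ) t := by
    simp only [Pi.sub_apply, Pi.smul_apply, smul_eq_mul]
    ring
  rw [h2]
  refine add_mem (hv t) (mul_mem h1 ?_)
  exact (mem_Lam M _).1 (ee_mem M s) t

theorem rho_mem (M : CoxeterMatrix S) (w : M.Group) : ∀ v ∈ Lam M, rho M w v ∈ Lam M := by
  refine M.toCoxeterSystem.simple_induction (p := fun w => ∀ v ∈ Lam M, rho M w v ∈ Lam M) w
    ?_ ?_ ?_
  · intro s v hv
    rw [M.toCoxeterSystem_simple, rho_simple]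
    exact refl_mem M s v hv
  · intro v hv
    rw [map_one]
    exact hv
  · intro a b ha hb v hv
    rw [map_mul]
    exact ha _ (hb v hv)

/-- the action on the lattice. -/
noncomputable def resHom (M : CoxeterMatrix S) : M.Group →* Module.End ℤ (Lam M) where
  toFun w := ((rho M w).restrictScalars ℤ).restrict (rho_mem M w)
  map_one' := by
    ext v : 2
    simp [LinearMap.restrict_apply]
  map_mul' a b := by
    ext v : 2
    simp [LinearMap.restrict_apply]

theorem resHom_apply (M : CoxeterMatrix S) (w : M.Group) (v : Lam M) :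
    ((resHom M w v : Lam M) : S → ℝ) = rho M w v := rfl

theorem resHom_ne_one (M : CoxeterMatrix S) (w : M.Group) (hw : rho M w ≠ 1) :
    resHom M w ≠ 1 := by
  intro h
  apply hw
  refine LinearMap.pi_ext' fun s => ?_
  refine LinearMap.ext_ring ?_
  have h1 := resHom_apply M w ⟨ee s, ee_mem M s⟩
  rw [h] at h1
  simp only [LinearMap.comp_apply, LinearMap.single_apply]
  exact h1.symm

/-- a non-identity integer matrix is non-identity modulo some `n`. -/
theorem exists_mod {ι : Type} [Fintype ι] [DecidableEq ι] (A : Matrix ι ι ℤ) (hA : A ≠ 1) :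
    ∃ n : ℕ, n ≠ 0 ∧ (Int.castRingHom (ZMod n)).mapMatrix A ≠ 1 := by
  have : ∃ i j, A i j ≠ (1 : Matrix ι ι ℤ) i j := by
    by_contra hcon
    push Not at hcon
    exact hA (Matrix.ext hcon)
  obtain ⟨i, j, hij⟩ := this
  set a : ℤ := A i j - (1 : Matrix ι ι ℤ) i j with ha
  have ha0 : a ≠ 0 := sub_ne_zero.2 hij
  refine ⟨a.natAbs + 1, Nat.succ_ne_zero _, fun h => ?_⟩
  have h1 : (Int.castRingHom (ZMod (a.natAbs + 1))).mapMatrix (A - 1) = 0 := by
    rw [map_sub, h, map_one, sub_self]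
  have h2 := congrFun (congrFun h1 i) j
  have h3 : ((a : ℤ) : ZMod (a.natAbs + 1)) = 0 := by
    simpa [RingHom.mapMatrix_apply, Matrix.map_apply, ha] using h2
  rw [ZMod.intCast_zmod_eq_zero_iff_dvd] at h3
  have h4 := Int.le_of_dvd (Int.natAbs_pos.2 ha0 |> fun h => by exact_mod_cast h)
    ((Int.dvd_natAbs).2 h3)
  push_cast at h4
  omega

end ResFin

open ResFin in
theorem exists_finite_quot (M : CoxeterMatrix S) (w : M.Group) (hw : rho M w ≠ 1) :
    ∃ (Q : Type) (_ : Group Q) (_ : Finite Q) (π : M.Group →* Q), π w ≠ 1 := by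
  have : Module.Finite ℤ (Lam M) := Module.Finite.iff_fg.2 (Lam_fg M)
  have : Module.Free ℤ (Lam M) := inferInstance
  classical
  let ι := Fin (Module.finrank ℤ (Lam M))
  let b : Module.Basis ι ℤ (Lam M) := Module.finBasis ℤ (Lam M)
  let T := LinearMap.toMatrixAlgEquiv b
  have hA : T (resHom M w) ≠ 1 := by
    intro h
    apply resHom_ne_one M w hw
    apply T.injective
    rw [h, map_one]
  obtain ⟨n, hn, hn1⟩ := exists_mod _ hA
  have : NeZero n := ⟨hn⟩
  let f : M.Group →* Matrix ι ι (ZMod n) :=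
    (((Int.castRingHom (ZMod n)).mapMatrix : Matrix ι ι ℤ →+* Matrix ι ι (ZMod n)) :
      Matrix ι ι ℤ →* Matrix ι ι (ZMod n)).comp
      ((T : Module.End ℤ (Lam M) →* Matrix ι ι ℤ).comp (resHom M))
  refine ⟨(Matrix ι ι (ZMod n))ˣ, inferInstance, inferInstance, f.toHomUnits, ?_⟩
  intro h
  apply hn1
  have := congrArg Units.val h
  rw [MonoidHom.coe_toHomUnits] at this
  exact this

end Pool.Agent.RI
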