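import Pool.Agent.RI.Root

/-! Module RI-ROOTFIN: if all products of two reflections have order dividing `B` in the geometric
representation then the Coxeter group is finite.

Proof.  Roots: `α = rho g (ee s)`.  Let `α = rho u (ee s)`, `β = rho v (ee t)` be linearly independent
roots, `x = - bil α β`.  By `rho_conj` the two reflections act by `r_α z = z - 2 bil(α,z) α` etc., and by
induction `(r_α r_β)^k α = cheb x (2k+1) • α + cheb x (2k) • β` (compare `rho_alt`).  `(r_α r_β)^B = 1` and
independence give `cheb x (2B) = 0`.  So `x` lies in the finite set `Z = {x | cheb x (2B) = 0}`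
(`cheb_finite`), and `|x| < 1` (`cheb_ne_zero`).
If `α, β` are dependent, then `β = a α`, `a² = 1` (`bil_root`), so `β = ± α` and `bil α β = ± 1`.
The map `α ↦ (bil α (ee s))_s` from the set `Φ` of roots to `S → ℝ` has image in the functions with values in
`-Z ∪ {1, -1}`, a finite set.  It is injective: if `bil α (ee s) = bil β (ee s)` for all `s` then
`bil α z = bil β z` for all `z`, so `bil α β = bil α α = 1`; so `x = -1`, `α` and `β` are dependent,
`β = ± α`, and `bil α β = 1` gives `β = α`.  So `Φ` is finite.  `M.Group` acts on `Φ` and the action is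
faithful: if `g` fixes all roots it fixes all `ee s`, so `rho g = 1` and `g = 1` (`rho_inj`).
So `M.Group` injects into `Equiv.Perm Φ` (or into `Φ → Φ`), which is finite. -/

namespace Pool.Agent.RI

variable {S : Type} [Fintype S] [DecidableEq S]

private theorem rootFin_pow (M : CoxeterMatrix S) (u v : M.Group) (s t : S) (k : ℕ) :
    ((rho M ((u * M.simple s * u⁻¹) * (v * M.simple t * v⁻¹))) ^ k) (rho M u (ee s)) =
      cheb (-bil M (rho M u (ee s)) (rho M v (ee t))) (2 * k + 1) • rho M u (ee s) +
      cheb (-bil M (rho M u (ee s)) (rho M v (ee t))) (2 * k) • rho M v (ee t) := by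
  set α := rho M u (ee s) with hα
  set β := rho M v (ee t) with hβ
  set x := -bil M α β with hx
  have hαα : bil M α α = 1 := bil_root M u s
  have hββ : bil M β β = 1 := bil_root M v t
  have hαβ : bil M α β = -x := by rw [hx]; ring
  have hβα : bil M β α = -x := by rw [bil_comm, hαβ]
  induction k with
  | zero => simp [cheb]
  | succ k ih =>
    rw [pow_succ', Module.End.mul_apply, ih, map_mul, Module.End.mul_apply, rho_conj, rho_conj,
      ← hα, ← hβ]
    have e1 : cheb x (2 * (k + 1)) = 2 * x * cheb x (2 * k + 1) - cheb x (2 * k) := by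
      rw [show 2 * (k + 1) = 2 * k + 2 by ring, cheb]
    have e2 : cheb x (2 * (k + 1) + 1) = 2 * x * cheb x (2 * (k + 1)) - cheb x (2 * k + 1) := by
      rw [show 2 * (k + 1) + 1 = (2 * k + 1) + 2 by ring, cheb]
      rw [show 2 * (k + 1) = 2 * k + 1 + 1 by ring]
    set a := cheb x (2 * k + 1) with ha
    set c := cheb x (2 * k) with hc
    have f1 : bil M β (a • α + c • β) = -(a * x) + c := by
      rw [bil_comm, bil_add_left, bil_smul_left, bil_smul_left, hαβ, hββ]
      ring
    rw [f1]
    have f2 : a • α + c • β - (2 * (-(a * x) + c)) • β = a • α + (2 * x * a - c) • β := by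
      module
    rw [f2]
    have f3 : bil M α (a • α + (2 * x * a - c) • β) = a - (2 * x * a - c) * x := by
      rw [bil_comm, bil_add_left, bil_smul_left, bil_smul_left, hαα, hβα]
      ring
    rw [f3, e2, e1]
    module

private theorem rootFin_dich (M : CoxeterMatrix S) (B : ℕ)
    (h : ∀ (u v : M.Group) (s t : S),
      (rho M ((u * M.simple s * u⁻¹) * (v * M.simple t * v⁻¹))) ^ B = 1)
    (u v : M.Group) (s t : S) :
    cheb (-bil M (rho M u (ee s)) (rho M v (ee t))) (2 * B) = 0 ∨
      rho M v (ee t) = rho M u (ee s) ∨ rho M v (ee t) = -rho M u (ee s) := by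
  have h1 := rootFin_pow M u v s t B
  rw [h u v s t, Module.End.one_apply] at h1
  have hαα : bil M (rho M u (ee s)) (rho M u (ee s)) = 1 := bil_root M u s
  have hββ : bil M (rho M v (ee t)) (rho M v (ee t)) = 1 := bil_root M v t
  set α := rho M u (ee s) with hα
  set β := rho M v (ee t) with hβ
  by_cases h0 : cheb (-bil M α β) (2 * B) = 0
  · exact Or.inl h0
  · right
    set p := cheb (-bil M α β) (2 * B + 1) with hp
    set q := cheb (-bil M α β) (2 * B) with hq
    have h2 : q • β = (1 - p) • α := by
      have h3 : q • β = α - p • α := by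
        rw [eq_sub_iff_add_eq, add_comm]
        exact h1.symm
      rw [h3]
      module
    have h4 : β = ((1 - p) / q) • α := by
      rw [div_eq_inv_mul, mul_smul, ← h2, smul_smul, inv_mul_cancel₀ h0, one_smul]
    set c := (1 - p) / q with hc
    have h5 : c * c = 1 := by
      have h6 := hββ
      rw [h4, bil_smul_left, bil_comm, bil_smul_left, hαα] at h6
      linarith
    rcases mul_self_eq_one_iff.mp h5 with h6 | h6
    · left
      rw [h4, h6, one_smul]
    · right
      rw [h4, h6, neg_smul, one_smul]

private theorem rootFin_bil (M : CoxeterMatrix S) (v z : S → ℝ) :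
    bil M v z = ∑ s, z s * bil M v (ee s) := by
  rw [bil_comm]
  unfold bil
  refine Finset.sum_congr rfl fun s _ => ?_
  congr 1
  have h := bil_ee M s v
  rw [← h, bil_comm]
  rfl

theorem finite_of_pow (M : CoxeterMatrix S) (B : ℕ) (hB : 0 < B)
    (h : ∀ (u v : M.Group) (s t : S),
      (rho M ((u * M.simple s * u⁻¹) * (v * M.simple t * v⁻¹))) ^ B = 1) : Finite M.Group := by
  classical
  set Φ : Set (S → ℝ) := {α | ∃ (g : M.Group) (s : S), α = rho M g (ee s)} with hΦ
  set V : Set ℝ := (fun x => -x) '' {x : ℝ | cheb x (2 * B) = 0} ∪ {1, -1} with hV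
  have hVfin : V.Finite :=
    ((cheb_finite (2 * B) (by omega)).image _).union (Set.toFinite _)
  have hval : ∀ α ∈ Φ, ∀ β ∈ Φ, bil M α β ∈ V := by
    rintro α ⟨u, s, rfl⟩ β ⟨v, t, rfl⟩
    rcases rootFin_dich M B h u v s t with h1 | h1 | h1
    · left
      exact ⟨-bil M (rho M u (ee s)) (rho M v (ee t)), h1, by simp⟩
    · right
      rw [h1, bil_root]
      simp
    · right
      rw [h1, bil_comm, ← neg_one_smul ℝ (rho M u (ee s)), bil_smul_left, bil_root]
      simp
  have hone : ∀ α ∈ Φ, ∀ β ∈ Φ, bil M α β = 1 → β = α := by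
    rintro α ⟨u, s, rfl⟩ β ⟨v, t, rfl⟩ h1
    rcases rootFin_dich M B h u v s t with h2 | h2 | h2
    · exfalso
      rw [h1] at h2
      exact cheb_ne_zero (-1) (by simp) (2 * B) (by omega) h2
    · exact h2
    · exfalso
      rw [h2, bil_comm, ← neg_one_smul ℝ (rho M u (ee s)), bil_smul_left, bil_root] at h1
      norm_num at h1
  have hee : ∀ s : S, ee s ∈ Φ := fun s => ⟨1, s, by simp⟩
  set F : (S → ℝ) → (S → ℝ) := fun α s => bil M α (ee s) with hF
  have hΦfin : Φ.Finite := by
    apply Set.Finite.of_finite_image (f := F)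
    · apply (Set.Finite.pi' (fun _ : S => hVfin)).subset
      rintro _ ⟨α, hα, rfl⟩
      intro s
      exact hval α hα _ (hee s)
    · intro α hα β hβ hαβ
      have h1 : bil M α β = bil M β β := by
        rw [rootFin_bil M α β, rootFin_bil M β β]
        refine Finset.sum_congr rfl fun s _ => ?_
        have h2 : bil M α (ee s) = bil M β (ee s) := congrFun hαβ s
        rw [h2]
      have h3 : bil M β β = 1 := by
        obtain ⟨g, s, rfl⟩ := hβ
        exact bil_root M g s
      exact (hone α hα β hβ (h1.trans h3)).symm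
  have : Finite Φ := hΦfin
  let G : M.Group → (S → Φ) := fun g s => ⟨rho M g (ee s), g, s, rfl⟩
  have hG : Function.Injective G := by
    intro g g' hgg
    apply rho_inj M
    apply (Pi.basisFun ℝ S).ext
    intro s
    have h1 : rho M g (ee s) = rho M g' (ee s) := congrArg Subtype.val (congrFun hgg s)
    rw [Pi.basisFun_apply]
    exact h1
  exact Finite.of_injective G hG

end Pool.Agent.RI
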