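import Pool.Agent.RI.LargeR
import Pool.Agent.RI.CaseA
import Pool.Agent.RI.CaseB
import Pool.Agent.RI.RootFin
import Pool.Agent.RI.ResFin
import Pool.Agent.RI.Abel

/-! Module RI-MAIN.

`large_artin`: let `B` be the product over all pairs `(s, t)` of `M s t` if it is not `0` and of `1` otherwise.
Case 1: for some `u, v, s, t` the element `w = ((u s u⁻¹) (v t v⁻¹))^B` of `M.Group` has `rho w ≠ 1`:
take a finite quotient `π : M.Group → Q` with `π w ≠ 1` (`exists_finite_quot`) and apply `large_of_quot` to
`σ s = π (simple s)`.  Case 2: otherwise `M.Group` is finite (`finite_of_pow`).  `M s0 t0 ≠ 0`: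
if `M s0 t0 = 0` then `rho ((s0 t0)^B) (ee s0) = cheb 1 (2B+1) • ee s0 + cheb 1 (2B) • ee t0` by `rho_alt`
(`(s0 t0)^B = alt s0 t0 (2B)`), with `cheb 1 (2B) = 2B ≠ 0`, contradicting Case 2 with
`u = v = 1`.  Apply `large_of_finite`. -/

namespace Pool.Agent.RI

private theorem pow_eq_alt {G : Type*} [Monoid G] (s t : G) (n : ℕ) : (s * t) ^ n = alt s t (2 * n) := by
  induction n with
  | zero => simp [alt]
  | succ n ih =>
    rw [pow_succ', ih, show 2 * (n + 1) = 2 * n + 1 + 1 by ring, alt, alt, mul_assoc]

theorem large_artin {S : Type} [Finite S] (M : CoxeterMatrix S) (s0 t0 : S) (h : s0 ≠ t0)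
    (h2 : M s0 t0 ≠ 2) : Large (ArtinGroup M) := by
  classical
  have : Fintype S := Fintype.ofFinite S
  let B : ℕ := ∏ s : S, ∏ t : S, if M s t = 0 then 1 else M s t
  have hBpos : 0 < B := by
    apply Finset.prod_pos
    intro s _
    apply Finset.prod_pos
    intro t _
    split_ifs with h0
    · exact one_pos
    · exact Nat.pos_of_ne_zero h0
  have hB : ∀ s t, s ≠ t → M s t ≠ 0 → M s t ∣ B := by
    intro s t _ h0
    have h1 : M s t ∣ ∏ t : S, if M s t = 0 then 1 else M s t := by
      have := Finset.dvd_prod_of_mem (fun t => if M s t = 0 then 1 else M s t) (Finset.mem_univ t)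
      simpa [h0] using this
    exact h1.trans (Finset.dvd_prod_of_mem (fun s => ∏ t : S, if M s t = 0 then 1 else M s t)
      (Finset.mem_univ s))
  by_cases hc : ∃ (u v : M.Group) (s t : S),
      (rho M ((u * M.simple s * u⁻¹) * (v * M.simple t * v⁻¹))) ^ B ≠ 1
  · obtain ⟨u, v, s, t, hne⟩ := hc
    rw [← map_pow] at hne
    obtain ⟨Q, _, _, π, hπ⟩ := exists_finite_quot M _ hne
    have hcs : M.toCoxeterSystem.simple = M.simple := M.toCoxeterSystem_simple
    have hclos : ∀ w : M.Group, π w ∈ Subgroup.closure (Set.range fun s => π (M.simple s)) := by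
      intro w
      have h1 : w ∈ Subgroup.closure (Set.range M.toCoxeterSystem.simple) := by
        rw [M.toCoxeterSystem.subgroup_closure_range_simple]; trivial
      have h2 : π w ∈ (Subgroup.closure (Set.range M.toCoxeterSystem.simple)).map π := ⟨w, h1, rfl⟩
      rw [MonoidHom.map_closure, ← Set.range_comp, hcs] at h2
      exact h2
    refine large_of_quot M (fun s => π (M.simple s)) ?_ ?_ B hB (π u) (π v) (hclos u) (hclos v) s t ?_
    · intro r
      rw [← map_mul, ← hcs, M.toCoxeterSystem.simple_mul_simple_self, map_one]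
    · intro r r'
      rw [← map_mul, ← map_pow, ← hcs, M.toCoxeterSystem.simple_mul_simple_pow, map_one]
    · intro hcon
      apply hπ
      rw [map_pow, map_mul, map_mul, map_mul, map_mul, map_mul, map_inv, map_inv]
      exact hcon
  · push Not at hc
    have hfin : Finite M.Group := finite_of_pow M B hBpos hc
    have h0 : M s0 t0 ≠ 0 := by
      intro h0
      have h3 := hc 1 1 s0 t0
      rw [← map_pow] at h3
      simp only [one_mul, inv_one, mul_one] at h3
      rw [pow_eq_alt] at h3
      have h4 := rho_alt M s0 t0 (2 * B)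
      rw [h3] at h4
      simp only [even_two, Even.mul_right, if_true, h0, Nat.cast_zero, div_zero, Real.cos_zero,
        Module.End.one_apply, cheb_one] at h4
      have h5 := congrFun h4 t0
      simp [ee, h.symm] at h5
      omega
    exact large_of_finite M s0 t0 h h0 h2

theorem artin_fg {S : Type} [Finite S] (M : CoxeterMatrix S) : Group.FG (ArtinGroup M) := by
  rw [Group.fg_iff]
  exact ⟨Set.range PresentedGroup.of, PresentedGroup.closure_range_of _, Set.finite_range _⟩

theorem artin_propRInf_iff {S : Type} [Finite S] (M : CoxeterMatrix S) :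
    PropRInf (ArtinGroup M) ↔ ∃ s t : S, s ≠ t ∧ M s t ≠ 2 := by
  constructor
  · intro h
    by_contra hc
    push Not at hc
    exact not_propRInf_of_two M hc h
  · rintro ⟨s, t, hst, h2⟩
    have := artin_fg M
    exact large_propRInf (large_artin M s t hst h2)

end Pool.Agent.RI
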