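import Pool.Agent.RI.Rep
import Pool.Agent.RI.Coc

/-! Module RI-POS: if `ℓ(w s) > ℓ(w)` then the root `w e_s` is a nonnegative combination of the `e_r`.

Proof (Tits, Bourbaki, Humphreys 5.4), strong induction on `ℓ(w)`.  `w = 1`: clear.  Let `w ≠ 1` and let `t` be a
right descent, `ℓ(w t) < ℓ(w)` (`exists_rightDescent_of_ne_one`); `t ≠ s`.  Consider all `k` such that
`w = v * a`, `a` an alternating word of `k` letters in `s, t` ENDING in `s` or in `t`, with
`ℓ(v) + k = ℓ(w)`; `k = 1` is possible (`a = t`), and `k ≤ ℓ(w)`; take `k` maximal.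
* The last letter of `a` is `t`: if it were `s` then `ℓ(w s) ≤ ℓ(v) + (k - 1) < ℓ(w)`.
* Let `x` be the first letter of `a` and `y` the other one; so `a = alt x y k`, and the next letter after
  `a` in the alternating pattern is `s`.  `ℓ(v x) > ℓ(v)`: `w = (v x) * a'` with `a'` of `k - 1` letters, so
  `ℓ(v x) ≥ ℓ(w) - (k - 1) = ℓ(v) + 1`.  `ℓ(v y) > ℓ(v)`: otherwise `ℓ(v y) = ℓ(v) - 1` and
  `w = (v y) * (y a)` contradicts the maximality of `k`.  Hence by induction (`ℓ(v) < ℓ(w)`)
  `v e_x ≥ 0` and `v e_y ≥ 0`.
* With `m = M s t`: `m = 0` or `k < m`.  Otherwise the alternating word of length `k + 1 > m` has length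
  `≤ k - 1`, so `ℓ(w s) ≤ ℓ(v) + (k - 1) < ℓ(w)`, a contradiction.
* `rho_alt`: `a e_s = cheb c (k+1) e_x + cheb c k e_y`, `c = cos (π/m)`, with nonnegative coefficients by
  `cheb_nonneg` (`k + 1 ≤ m` or `m = 0`).  So `w e_s = v (a e_s) ≥ 0`. -/

namespace Pool.Agent.RI

variable {S : Type} [Fintype S] [DecidableEq S]

private theorem alt_succ_pos {G : Type*} [Monoid G] (s t : G) (n : ℕ) :
    alt s t (n + 1) = alt s t n * (if Even n then s else t) := by
  induction n generalizing s t with
  | zero => simp [alt]
  | succ n ih =>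
    rw [alt, ih t s, alt, mul_assoc]
    congr 2
    by_cases h : Even n
    · have : ¬ Even (n + 1) := by rw [Nat.even_add_one]; simpa using h
      simp [h, this]
    · have : Even (n + 1) := by rw [Nat.even_add_one]; exact h
      simp [h, this]

private theorem length_alt_le (M : CoxeterMatrix S) (x y : S) (k : ℕ) :
    M.toCoxeterSystem.length (alt (M.simple x) (M.simple y) k) ≤ k := by
  induction k generalizing x y with
  | zero => simp [alt]
  | succ k ih =>
    rw [alt]
    refine (M.toCoxeterSystem.length_mul_le _ _).trans ?_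
    have h1 : M.toCoxeterSystem.length (M.simple x) = 1 := by
      rw [← M.toCoxeterSystem_simple]; exact M.toCoxeterSystem.length_simple x
    have := ih y x
    omega

private theorem simple_mul_self (M : CoxeterMatrix S) (x : S) : M.simple x * M.simple x = 1 := by
  rw [← M.toCoxeterSystem_simple]; exact M.toCoxeterSystem.simple_mul_simple_self x

private theorem length_alt_long (M : CoxeterMatrix S) (x y : S) (h0 : M x y ≠ 0) (j : ℕ) :
    M.toCoxeterSystem.length (alt (M.simple x) (M.simple y) (M x y + 1 + j)) ≤ M x y - 1 + j := by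
  induction j with
  | zero =>
    obtain ⟨m, hm⟩ : ∃ m, M x y = m + 1 := ⟨M x y - 1, by omega⟩
    have hb : alt (M.simple y) (M.simple x) (M x y) = alt (M.simple x) (M.simple y) (M x y) := by
      apply alt_eq_of_pow _ _ (simple_mul_self M y) (simple_mul_self M x)
      rw [← M.toCoxeterSystem_simple]
      exact M.toCoxeterSystem.simple_mul_simple_pow' x y
    have h1 : alt (M.simple x) (M.simple y) (M x y + 1 + 0) = alt (M.simple y) (M.simple x) m := by
      rw [add_zero, alt, hb, hm, alt, ← mul_assoc, simple_mul_self, one_mul]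
    rw [h1, hm]
    simpa using length_alt_le M y x m
  | succ j ih =>
    rw [← add_assoc, alt_succ_pos]
    refine (M.toCoxeterSystem.length_mul_le _ _).trans ?_
    have h1 : M.toCoxeterSystem.length (if Even (M x y + 1 + j) then M.simple x else M.simple y) = 1 := by
      split_ifs
      · rw [← M.toCoxeterSystem_simple]; exact M.toCoxeterSystem.length_simple x
      · rw [← M.toCoxeterSystem_simple]; exact M.toCoxeterSystem.length_simple y
    omega

/-- the alternating decomposition. -/
private theorem exists_decomp (M : CoxeterMatrix S) (w : M.Group) (s t : S) (hst : s ≠ t)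
    (hs : M.toCoxeterSystem.length w < M.toCoxeterSystem.length (w * M.simple s))
    (ht : M.toCoxeterSystem.length (w * M.simple t) < M.toCoxeterSystem.length w) :
    ∃ (v : M.Group) (x y : S) (k : ℕ), x ≠ y ∧ 0 < k ∧ w = v * alt (M.simple x) (M.simple y) k ∧
      (if Even k then x else y) = s ∧
      M.toCoxeterSystem.length v + k = M.toCoxeterSystem.length w ∧
      M.toCoxeterSystem.length v < M.toCoxeterSystem.length (v * M.simple x) ∧
      M.toCoxeterSystem.length v < M.toCoxeterSystem.length (v * M.simple y) ∧
      (M x y = 0 ∨ k < M x y) := by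
  classical
  let cs := M.toCoxeterSystem
  have hsimp : ∀ r, cs.simple r = M.simple r := fun r => by
    rw [show cs.simple = M.simple from M.toCoxeterSystem_simple]
  let D : ℕ → Prop := fun k => ∃ (v : M.Group) (x y : S), ((x = s ∧ y = t) ∨ (x = t ∧ y = s)) ∧
    w = v * alt (M.simple x) (M.simple y) k ∧ cs.length v + k = cs.length w
  have hlt : cs.length (w * M.simple t) + 1 = cs.length w := by
    rcases cs.length_mul_simple w t with h | h
    · rw [hsimp] at h; change cs.length _ < cs.length _ at ht; omega
    · rw [hsimp] at h; exact h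
  have D1 : D 1 := by
    refine ⟨w * M.simple t, t, s, Or.inr ⟨rfl, rfl⟩, ?_, hlt⟩
    simp [alt, mul_assoc, simple_mul_self]
  have hw1 : 1 ≤ cs.length w := by omega
  obtain ⟨k, hk, hmax⟩ : ∃ k, (D k ∧ 1 ≤ k) ∧ ∀ k', k < k' → ¬ D k' := by
    have hbd : ∀ k, D k → k ≤ cs.length w := by
      rintro k ⟨v, x, y, _, _, h⟩; omega
    refine ⟨Nat.findGreatest D (cs.length w), ⟨Nat.findGreatest_spec hw1 D1,
      Nat.le_findGreatest hw1 D1⟩, ?_⟩
    intro k' hk' hD
    exact Nat.findGreatest_is_greatest hk' (hbd k' hD) hD
  obtain ⟨⟨v, x, y, hxy, hw, hlen⟩, hk1⟩ := hk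
  have hne : x ≠ y := by
    rcases hxy with ⟨rfl, rfl⟩ | ⟨rfl, rfl⟩
    · exact hst
    · exact hst.symm
  obtain ⟨k', rfl⟩ : ∃ k', k = k' + 1 := ⟨k - 1, by omega⟩
  -- the last letter is not s
  have hlast : (if Even k' then x else y) ≠ s := by
    intro h
    have h1 : w * M.simple s = v * alt (M.simple x) (M.simple y) k' := by
      rw [hw, alt_succ_pos]
      have : (if Even k' then M.simple x else M.simple y) = M.simple s := by
        rw [← h]; split_ifs <;> rfl
      rw [this]
      simp only [mul_assoc, simple_mul_self, mul_one]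
    have h2 : cs.length (w * M.simple s) ≤ cs.length v + k' := by
      rw [h1]
      exact (cs.length_mul_le _ _).trans (Nat.add_le_add_left (length_alt_le M x y k') _)
    change cs.length w < cs.length _ at hs
    omega
  have hnext : (if Even (k' + 1) then x else y) = s := by
    by_cases h : Even k'
    · have h' : ¬ Even (k' + 1) := by rw [Nat.even_add_one]; simpa using h
      simp only [h, h', if_true, if_false] at hlast ⊢
      rcases hxy with ⟨rfl, rfl⟩ | ⟨rfl, rfl⟩
      · exact absurd rfl hlast
      · rfl
    · have h' : Even (k' + 1) := by rw [Nat.even_add_one]; exact h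
      simp only [h, h', if_true, if_false] at hlast ⊢
      rcases hxy with ⟨rfl, rfl⟩ | ⟨rfl, rfl⟩
      · rfl
      · exact absurd rfl hlast
  refine ⟨v, x, y, k' + 1, hne, by omega, hw, hnext, hlen, ?_, ?_, ?_⟩
  · -- v x
    have h1 : w = (v * M.simple x) * alt (M.simple y) (M.simple x) k' := by
      rw [hw, alt, mul_assoc]
    have h2 : cs.length w ≤ cs.length (v * M.simple x) + k' := by
      conv_lhs => rw [h1]
      exact (cs.length_mul_le _ _).trans (Nat.add_le_add_left (length_alt_le M y x k') _)
    change cs.length v < cs.length _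
    omega
  · -- v y
    change cs.length v < cs.length _
    rcases cs.length_mul_simple v y with h | h
    · rw [hsimp] at h; omega
    · rw [hsimp] at h
      exfalso
      apply hmax (k' + 1 + 1) (by omega)
      refine ⟨v * M.simple y, y, x, ?_, ?_, by omega⟩
      · rcases hxy with ⟨h1, h2⟩ | ⟨h1, h2⟩
        · exact Or.inr ⟨h2, h1⟩
        · exact Or.inl ⟨h2, h1⟩
      · rw [hw, alt.eq_2 (M.simple y), mul_assoc, ← mul_assoc (M.simple y), simple_mul_self, one_mul]
  · -- k < m
    by_contra hcon
    push Not at hcon
    obtain ⟨h0, hmk⟩ := hcon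
    obtain ⟨j, hj⟩ : ∃ j, k' + 1 + 1 = M x y + 1 + j := ⟨k' + 1 - M x y, by omega⟩
    have h1 : w * M.simple s = v * alt (M.simple x) (M.simple y) (k' + 1 + 1) := by
      rw [hw, alt_succ_pos _ _ (k' + 1)]
      have : (if Even (k' + 1) then M.simple x else M.simple y) = M.simple s := by
        rw [← hnext]; split_ifs <;> rfl
      rw [this, mul_assoc]
    have h2 : cs.length (w * M.simple s) ≤ cs.length v + (M x y - 1 + j) := by
      rw [h1, hj]
      exact (cs.length_mul_le _ _).trans (Nat.add_le_add_left (length_alt_long M x y h0 j) _)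
    change cs.length w < cs.length _ at hs
    omega

theorem pos_of_lt (M : CoxeterMatrix S) (w : M.Group) (s : S)
    (h : M.toCoxeterSystem.length w < M.toCoxeterSystem.length (w * M.simple s)) (r : S) :
    0 ≤ rho M w (ee s) r := by
  obtain ⟨n, hn⟩ : ∃ n, M.toCoxeterSystem.length w = n := ⟨_, rfl⟩
  induction n using Nat.strong_induction_on generalizing w s r with
  | _ n ih =>
    by_cases hw : w = 1
    · subst hw
      simp only [map_one, Module.End.one_apply, ee]
      by_cases hrs : r = s
      · subst hrs; simp
      · simp [hrs]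
    · obtain ⟨t, ht⟩ := M.toCoxeterSystem.exists_rightDescent_of_ne_one hw
      have ht' : M.toCoxeterSystem.length (w * M.simple t) < M.toCoxeterSystem.length w := by
        have := ht
        unfold CoxeterSystem.IsRightDescent at this
        rwa [show M.toCoxeterSystem.simple = M.simple from M.toCoxeterSystem_simple] at this
      have hst : s ≠ t := by
        rintro rfl
        omega
      obtain ⟨v, x, y, k, hne, hk0, hwv, hnext, hlen, hvx, hvy, hkm⟩ := exists_decomp M w s t hst h ht'
      have hx := ih (M.toCoxeterSystem.length v) (by omega) v x hvx r rfl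
      have hy := ih (M.toCoxeterSystem.length v) (by omega) v y hvy r rfl
      have hm1 : M x y ≠ 1 := M.off_diagonal x y hne
      have key : rho M w (ee s) = cheb (Real.cos (Real.pi / (M x y : ℝ))) (k + 1) • rho M v (ee x) +
          cheb (Real.cos (Real.pi / (M x y : ℝ))) k • rho M v (ee y) := by
        rw [hwv, map_mul, Module.End.mul_apply, ← hnext, rho_alt, map_add, map_smul, map_smul]
      rw [key]
      simp only [Pi.add_apply, Pi.smul_apply, smul_eq_mul]
      have h1 : 0 ≤ cheb (Real.cos (Real.pi / (M x y : ℝ))) (k + 1) := by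
        apply cheb_nonneg _ hm1
        rcases hkm with h | h
        · exact Or.inl h
        · exact Or.inr h
      have h2 : 0 ≤ cheb (Real.cos (Real.pi / (M x y : ℝ))) k := by
        apply cheb_nonneg _ hm1
        rcases hkm with h | h
        · exact Or.inl h
        · exact Or.inr (by omega)
      positivity

end Pool.Agent.RI
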