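import Pool.Agent.RI.RepDef

/-! Module RI-REP: the geometric representation of the Coxeter group `M.Group` on `S → ℝ`.

`rho_simple`: `CoxeterSystem.lift_apply_simple`, `CoxeterMatrix.toCoxeterSystem_simple`.
`bil`: symmetric since `M` is (`M.symmetric`); `bil (ee s) v = bfL s v`; `refl s` preserves `bil` by direct
computation from `refl_apply`, `bfL_ee` (`M s s = 1`, `cos π = -1`); `bil_rho` by induction on the group
element (`CoxeterSystem.simple_induction`).
`rho_conj`: the conjugate of `refl s` by the isometry `rho g`.
`rho_alt`: induction on `k` generalizing `x y`: `alt x y (k+1) = x * alt y x k`, and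
`refl x (cheb (k+1) • ee y + cheb k • ee x) = cheb (k+1) • (ee y + 2 c • ee x) - cheb k • ee x`. -/

namespace Pool.Agent.RI

variable {S : Type} [Fintype S] [DecidableEq S]

/-- the bilinear form. -/
noncomputable def bil (M : CoxeterMatrix S) (v w : S → ℝ) : ℝ := ∑ s, v s * bfL M s w

/-- the geometric representation. -/
noncomputable def rho (M : CoxeterMatrix S) : M.Group →* Module.End ℝ (S → ℝ) :=
  M.toCoxeterSystem.lift ⟨refl M, refl_liftable M⟩

theorem rho_simple (M : CoxeterMatrix S) (s : S) : rho M (M.simple s) = refl M s := by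
  unfold rho
  rw [← M.toCoxeterSystem_simple]
  exact M.toCoxeterSystem.lift_apply_simple (refl_liftable M) s

theorem bil_add_left (M : CoxeterMatrix S) (v v' w : S → ℝ) :
    bil M (v + v') w = bil M v w + bil M v' w := by
  simp only [bil, Pi.add_apply, add_mul, Finset.sum_add_distrib]

theorem bil_smul_left (M : CoxeterMatrix S) (a : ℝ) (v w : S → ℝ) :
    bil M (a • v) w = a * bil M v w := by
  simp only [bil, Pi.smul_apply, smul_eq_mul, mul_assoc, Finset.mul_sum]

private theorem rep_bfL_apply (M : CoxeterMatrix S) (s : S) (w : S → ℝ) :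
    bfL M s w = ∑ t, -(Real.cos (Real.pi / (M s t : ℝ)) * w t) := by
  simp [bfL, Finset.sum_neg_distrib]

theorem bil_comm (M : CoxeterMatrix S) (v w : S → ℝ) : bil M v w = bil M w v := by
  simp only [bil, rep_bfL_apply, Finset.mul_sum]
  rw [Finset.sum_comm]
  refine Finset.sum_congr rfl fun s _ => Finset.sum_congr rfl fun t _ => ?_
  rw [M.symmetric t s]
  ring

theorem bil_ee (M : CoxeterMatrix S) (s : S) (v : S → ℝ) : bil M (ee s) v = bfL M s v := by
  simp only [bil, ee]
  rw [Finset.sum_eq_single s]
  · simp
  · intro t _ hts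
    simp [Pi.single_apply, hts]
  · intro h
    exact absurd (Finset.mem_univ s) h

private theorem rep_ee_self (M : CoxeterMatrix S) (s : S) : bfL M s (ee s) = 1 := by
  rw [bfL_ee, M.diagonal s]
  simp

private theorem rep_bil_refl (M : CoxeterMatrix S) (s : S) (v w : S → ℝ) :
    bil M (refl M s v) (refl M s w) = bil M v w := by
  have hsub : ∀ (x : S → ℝ) (a : ℝ), x - a • ee s = x + (-a) • ee s := by
    intro x a
    rw [neg_smul, sub_eq_add_neg]
  rw [refl_apply, refl_apply, hsub, hsub, bil_add_left, bil_smul_left,
    bil_comm M v, bil_add_left, bil_smul_left, bil_ee, bil_ee, map_add, map_smul,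
    rep_ee_self, bil_comm M w v]
  simp only [smul_eq_mul]
  ring

theorem bil_rho (M : CoxeterMatrix S) (g : M.Group) (v w : S → ℝ) :
    bil M (rho M g v) (rho M g w) = bil M v w := by
  revert v w
  refine M.toCoxeterSystem.simple_induction (p := fun g => ∀ v w : S → ℝ,
    bil M (rho M g v) (rho M g w) = bil M v w) g ?_ ?_ ?_
  · intro s v w
    rw [M.toCoxeterSystem_simple, rho_simple]
    exact rep_bil_refl M s v w
  · intro v w
    rw [map_one]
    rfl
  · intro g h hg hh v w
    rw [map_mul]
    show bil M (rho M g (rho M h v)) (rho M g (rho M h w)) = bil M v w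
    rw [hg, hh]

theorem bil_root (M : CoxeterMatrix S) (g : M.Group) (s : S) :
    bil M (rho M g (ee s)) (rho M g (ee s)) = 1 := by
  rw [bil_rho, bil_ee, rep_ee_self]

/-- the conjugate `g s g⁻¹` acts as the reflection in the root `g e_s`. -/
theorem rho_conj (M : CoxeterMatrix S) (g : M.Group) (s : S) (v : S → ℝ) :
    rho M (g * M.simple s * g⁻¹) v =
      v - (2 * bil M (rho M g (ee s)) v) • rho M g (ee s) := by
  have h1 : rho M g (rho M g⁻¹ v) = v := by
    have h2 : rho M (g * g⁻¹) v = v := by
      rw [mul_inv_cancel, map_one]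
      rfl
    rw [map_mul] at h2
    exact h2
  have h3 : bil M (rho M g (ee s)) v = bfL M s (rho M g⁻¹ v) := by
    conv_lhs => rw [← h1]
    rw [bil_rho, bil_ee]
  rw [map_mul, map_mul, rho_simple]
  show rho M g (refl M s (rho M g⁻¹ v)) = _
  rw [refl_apply, map_sub, map_smul, h1, h3]

/-- the alternating word `x y x ⋯` (`k` letters) applied to the root of the next letter. -/
theorem rho_alt (M : CoxeterMatrix S) (x y : S) (k : ℕ) :
    rho M (alt (M.simple x) (M.simple y) k) (ee (if Even k then x else y)) =
      cheb (Real.cos (Real.pi / (M x y : ℝ))) (k + 1) • ee x +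
      cheb (Real.cos (Real.pi / (M x y : ℝ))) k • ee y := by
  induction k generalizing x y with
  | zero =>
    simp [alt, cheb]
  | succ k ih =>
    have h1 : (if Even (k + 1) then x else y) = (if Even k then y else x) := by
      by_cases hk : Even k
      · have : ¬ Even (k + 1) := by
          rw [Nat.even_add_one]
          exact not_not.2 hk
        rw [if_neg this, if_pos hk]
      · have : Even (k + 1) := by
          rw [Nat.even_add_one]
          exact hk
        rw [if_pos this, if_neg hk]
    rw [h1]
    have h2 : alt (M.simple x) (M.simple y) (k + 1) =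
        M.simple x * alt (M.simple y) (M.simple x) k := rfl
    rw [h2, map_mul, rho_simple]
    show refl M x (rho M (alt (M.simple y) (M.simple x) k) (ee (if Even k then y else x))) = _
    rw [ih y x, M.symmetric y x, map_add, map_smul, map_smul, refl_apply, refl_apply, bfL_ee,
      rep_ee_self]
    have h3 : cheb (Real.cos (Real.pi / (M x y : ℝ))) (k + 1 + 1) =
        2 * Real.cos (Real.pi / (M x y : ℝ)) * cheb (Real.cos (Real.pi / (M x y : ℝ))) (k + 1) -
          cheb (Real.cos (Real.pi / (M x y : ℝ))) k := by
      rw [cheb]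
    rw [h3]
    module

end Pool.Agent.RI
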