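import Pool.Agent.RI.Defs
import Pool.Agent.RI.Cheb

/-! Module RI-LIFT: the reflections of the geometric representation on `S → ℝ` satisfy the Coxeter relations.

`bfL M s v = B(e_s, v)`, `B(e_s, e_t) = - cos (π / m_st)` (`m_st = 0` encodes `∞`, then
`π / 0 = 0` in Lean and the value is `-1`, as it should be; `m_ss = 1` gives `1`).
`refl M s v = v - 2 B(e_s, v) e_s`.

`refl_liftable`: `(refl s * refl t) ^ m = 1`, `m = m_st`.  `s = t`: `m = 1`, `refl` is an involution.
`m = 0`: trivial.  Otherwise `T = refl s * refl t`; with `c = cos (π/m)`, `(x, y) = (B(e_s,v), B(e_t,v))`: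
`T v = v - 2 (x + 2 c y) e_s - 2 y e_t`, `B(e_s, T v) = - x - 2 c y`, `B(e_t, T v) = 2 c x + (4 c² - 1) y`.
By induction `T^k v = v - 2 p_k e_s - 2 q_k e_t` with explicit `p_k, q_k` in `x, y` and `cheb c`: e.g. (check
with `k = 1`) `q_k = cheb c k * (cheb c k * y + cheb c (k-1) * x)`, `p_k = cheb c k * (cheb c (k+1) * y + cheb c k * x)`;
`cheb_top` gives `T^m = 1` for `m ≥ 2`.
(Alternatively `Module.reflection_mul_reflection_pow` of Mathlib, or sums of a geometric series.) -/

namespace Pool.Agent.RI

variable {S : Type} [Fintype S] [DecidableEq S]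

/-- basis vector. -/
def ee (s : S) : S → ℝ := Pi.single s 1

/-- `B(e_s, ·)`. -/
noncomputable def bfL (M : CoxeterMatrix S) (s : S) : (S → ℝ) →ₗ[ℝ] ℝ :=
  -∑ t, Real.cos (Real.pi / (M s t : ℝ)) • LinearMap.proj t

/-- the reflection `σ_s`. -/
noncomputable def refl (M : CoxeterMatrix S) (s : S) : Module.End ℝ (S → ℝ) :=
  LinearMap.id - (2 : ℝ) • (bfL M s).smulRight (ee s)

theorem bfL_ee (M : CoxeterMatrix S) (s t : S) : bfL M s (ee t) = - Real.cos (Real.pi / (M s t : ℝ)) := by
  simp [bfL, ee, LinearMap.sum_apply, Pi.single_apply]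

theorem refl_apply (M : CoxeterMatrix S) (s : S) (v : S → ℝ) :
    refl M s v = v - (2 * bfL M s v) • ee s := by
  simp [refl, mul_smul]

private theorem bfL_self (M : CoxeterMatrix S) (s : S) : bfL M s (ee s) = 1 := by
  rw [bfL_ee, M.diagonal]; simp

theorem refl_refl (M : CoxeterMatrix S) (s : S) (v : S → ℝ) : refl M s (refl M s v) = v := by
  rw [refl_apply, refl_apply, map_sub, map_smul, bfL_self, smul_eq_mul, mul_one]
  module

private theorem cheb_inv (c : ℝ) (k : ℕ) :
    cheb c (k + 1) ^ 2 - 2 * c * cheb c k * cheb c (k + 1) + cheb c k ^ 2 = 1 := by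
  induction k with
  | zero => simp [cheb]
  | succ k ih =>
    have e : cheb c (k + 1 + 1) = 2 * c * cheb c (k + 1) - cheb c k := rfl
    rw [e]
    linarith

private theorem pow_formula (M : CoxeterMatrix S) (s t : S) (v : S → ℝ) (k : ℕ) :
    ((refl M s * refl M t) ^ k) v = v -
      (2 * (cheb (Real.cos (Real.pi / (M s t : ℝ))) k *
        (cheb (Real.cos (Real.pi / (M s t : ℝ))) (k + 1) * bfL M t v +
          cheb (Real.cos (Real.pi / (M s t : ℝ))) k * bfL M s v))) • ee s -
      (2 * (cheb (Real.cos (Real.pi / (M s t : ℝ))) k *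
        (cheb (Real.cos (Real.pi / (M s t : ℝ))) k * bfL M t v +
          (2 * Real.cos (Real.pi / (M s t : ℝ)) * cheb (Real.cos (Real.pi / (M s t : ℝ))) k -
            cheb (Real.cos (Real.pi / (M s t : ℝ))) (k + 1)) * bfL M s v))) • ee t := by
  set c := Real.cos (Real.pi / (M s t : ℝ)) with hc
  induction k with
  | zero => simp [cheb]
  | succ k ih =>
    rw [pow_succ', Module.End.mul_apply, ih, Module.End.mul_apply]
    have h1 : bfL M s (ee t) = -c := bfL_ee M s t
    have h2 : bfL M t (ee s) = -c := by rw [bfL_ee, M.symmetric t s]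
    have hd : cheb c (k + 1 + 1) = 2 * c * cheb c (k + 1) - cheb c k := rfl
    have hx : cheb c (k + 1) ^ 2 - 2 * c * cheb c k * cheb c (k + 1) + cheb c k ^ 2 = 1 := cheb_inv c k
    rw [hd]
    generalize cheb c k = a at hx ⊢
    generalize cheb c (k + 1) = b at hx ⊢
    rw [refl_apply M t, refl_apply M s]
    simp only [map_sub, map_smul, h1, h2, bfL_self, smul_eq_mul]
    generalize bfL M s v = x
    generalize bfL M t v = y
    have e1 : b * ((2 * c * b - a) * y + b * x) = (4 * c ^ 2 - 1) * (a * (b * y + a * x)) -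
        2 * c * (a * (a * y + (2 * c * a - b) * x)) + x + 2 * c * y := by
      linear_combination (2 * c * y + x) * hx
    have e2 : b * (b * y + (2 * c * b - (2 * c * b - a)) * x) =
        - (a * (a * y + (2 * c * a - b) * x)) + y + 2 * c * (a * (b * y + a * x)) := by
      linear_combination y * hx
    rw [e1, e2]
    module

theorem refl_liftable (M : CoxeterMatrix S) : M.IsLiftable (refl M) := by
  intro s t
  by_cases h0 : M s t = 0
  · rw [h0, pow_zero]
  by_cases h1 : M s t = 1
  · have hst : s = t := by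
      by_contra hne
      exact M.off_diagonal s t hne h1
    subst hst
    rw [h1, pow_one]
    apply LinearMap.ext
    intro v
    rw [Module.End.mul_apply, refl_refl, Module.End.one_apply]
  · apply LinearMap.ext
    intro v
    rw [pow_formula, cheb_top _ (by omega)]
    simp

end Pool.Agent.RI
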