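import Pool.Agent.RI.Pos

/-! Module RI-ROOT: corollaries of positivity.

`root_sign`: if `ℓ(w s) > ℓ(w)` use `pos_of_lt`; otherwise `ℓ(w s) < ℓ(w)` (`length_mul_simple`), apply
`pos_of_lt` to `w s`: `w s e_s = - w e_s ≥ 0`.
`rho_inj`: if `rho w = 1`, `w ≠ 1`, take a right descent `s`; then `w e_s ≤ 0` by the above but it is
`e_s`.
`root_flip`: `β = w e_r ≥ 0`.  `refl s β` differs from `β` only in the coordinate `s`.  `refl s β = (s w) e_r` is
not `≥ 0`, so it is `≤ 0` (`root_sign`), so all coordinates of `β` other than `s` are `≥ 0` and `≤ 0`,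
i.e. `0`; `β = a e_s`, `a ≥ 0`, and `bil β β = 1` (`bil_root`) gives `a = 1`. -/

namespace Pool.Agent.RI

variable {S : Type} [Fintype S] [DecidableEq S]

private theorem bfL_self (M : CoxeterMatrix S) (s : S) : bfL M s (ee s) = 1 := by
  rw [bfL_ee, M.diagonal]
  simp

private theorem refl_self (M : CoxeterMatrix S) (s : S) : refl M s (ee s) = - ee s := by
  rw [refl_apply, bfL_self]
  module

private theorem rho_mul_simple (M : CoxeterMatrix S) (w : M.Group) (s : S) :
    rho M (w * M.simple s) (ee s) = - rho M w (ee s) := by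
  rw [map_mul, Module.End.mul_apply, rho_simple, refl_self, map_neg]

private theorem neg_of_lt (M : CoxeterMatrix S) (w : M.Group) (s : S)
    (h : M.toCoxeterSystem.length (w * M.simple s) < M.toCoxeterSystem.length w) (r : S) :
    rho M w (ee s) r ≤ 0 := by
  have hs : M.simple s * M.simple s = 1 := by
    have h1 := M.toCoxeterSystem.simple_mul_simple_self s
    rwa [CoxeterMatrix.toCoxeterSystem_simple] at h1
  have h2 : w * M.simple s * M.simple s = w := by
    rw [mul_assoc, hs, mul_one]
  have h3 := pos_of_lt M (w * M.simple s) s (by rw [h2]; exact h) r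
  rw [rho_mul_simple, Pi.neg_apply] at h3
  linarith

theorem root_sign (M : CoxeterMatrix S) (w : M.Group) (s : S) :
    (∀ r, 0 ≤ rho M w (ee s) r) ∨ (∀ r, rho M w (ee s) r ≤ 0) := by
  have h := M.toCoxeterSystem.length_mul_simple w s
  rw [CoxeterMatrix.toCoxeterSystem_simple] at h
  rcases h with h | h
  · left
    intro r
    exact pos_of_lt M w s (by omega) r
  · right
    intro r
    exact neg_of_lt M w s (by omega) r

theorem root_flip (M : CoxeterMatrix S) (w : M.Group) (r s : S) (hpos : ∀ i, 0 ≤ rho M w (ee r) i)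
    (hneg : ¬ ∀ i, 0 ≤ refl M s (rho M w (ee r)) i) : rho M w (ee r) = ee s := by
  have h1 : rho M (M.simple s * w) (ee r) = refl M s (rho M w (ee r)) := by
    rw [map_mul, Module.End.mul_apply, rho_simple]
  have h2 : ∀ i, refl M s (rho M w (ee r)) i ≤ 0 := by
    rcases root_sign M (M.simple s * w) r with h | h
    · rw [h1] at h
      exact absurd h hneg
    · rw [h1] at h
      exact h
  set β := rho M w (ee r) with hβ
  have h3 : ∀ i, i ≠ s → β i = 0 := by
    intro i hi
    have h4 := h2 i
    rw [refl_apply] at h4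
    have h5 : ee s i = 0 := by
      unfold ee
      exact Pi.single_eq_of_ne hi 1
    rw [Pi.sub_apply, Pi.smul_apply, h5, smul_zero, sub_zero] at h4
    exact le_antisymm h4 (hpos i)
  have h6 : β = β s • ee s := by
    funext i
    rw [Pi.smul_apply, smul_eq_mul]
    by_cases hi : i = s
    · subst hi
      unfold ee
      rw [Pi.single_eq_same, mul_one]
    · rw [h3 i hi]
      unfold ee
      rw [Pi.single_eq_of_ne hi, mul_zero]
  have h7 : bil M β β = 1 := bil_root M w r
  have h8 : bil M β β = β s * β s := by
    have h9 : bil M β β = bil M (β s • ee s) (β s • ee s) := by rw [← h6]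
    rw [h9, bil_smul_left, bil_ee, map_smul, bfL_self, smul_eq_mul, mul_one]
  have h10 : β s = 1 := by
    have h11 := hpos s
    rw [h7] at h8
    nlinarith
  rw [h6, h10, one_smul]

theorem rho_inj (M : CoxeterMatrix S) : Function.Injective (rho M) := by
  rw [injective_iff_map_eq_one]
  intro w hw
  by_contra hne
  obtain ⟨s, hs⟩ := M.toCoxeterSystem.exists_rightDescent_of_ne_one hne
  unfold CoxeterSystem.IsRightDescent at hs
  rw [CoxeterMatrix.toCoxeterSystem_simple] at hs
  have h1 := neg_of_lt M w s hs s
  rw [hw, Module.End.one_apply] at h1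
  unfold ee at h1
  rw [Pi.single_eq_same] at h1
  linarith

end Pool.Agent.RI
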