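import Pool.Agent.RI.Crt
import Pool.Agent.RI.Alt
import Pool.Agent.RI.FinHom

/-! Module RI-SIMP: a finitely generated group with infinitely many quotients `A_{q+2}` has
`R(φ) = ∞` for all automorphisms `φ`.

Proof.  Fix `φ`, suppose `Quot (TwConj φ)` is finite with `k` elements.  Choose `k + 1` distinct
primes `q_0, …, q_k ≥ 5` for which `K` maps onto `A_{q+2}`.  For each of them let `X_q` be the set of
all kernels of surjections `K → A_{q+2}`: nonempty, and finite since there are only finitely many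
homomorphisms from a finitely generated group to a finite group (`finite_hom`).  For `N ∈ X_q` choose a surjection
`f_N` with kernel `N`.  Kernels in different `X_q` differ (`alt_card_inj`: `K ⧸ N ≃ A_{q+2}`).  The index set
`Σ j, X_{q_j}` is finite, so by `pi_surj` for all `t_N ∈ A_{q_j+2}` there is `y` with
`f_N y = t_N` for all `N ∈ X_{q_j}`, all `j`.
(a) For each `j` there are `a_j b_j : K` with: for all `x : K` some `N ∈ X_{q_j}` has
`f_N (x * a_j * (φ x)⁻¹) ≠ f_N b_j`.  Proof: choose `y` such that `f_N y` has order `q_j` for all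
`N ∈ X_{q_j}` (`alt_exists_order`).  Then `f_N (φ y)` has order `q_j` as well: `f_N ∘ φ` is a surjection
with kernel `N' ∈ X_{q_j}`, and `f_N (φ y) ^ m = 1` iff `y ^ m ∈ N'` iff `f_{N'} y ^ m = 1`.  By `alt_conj`
`f_N (φ y) = c_N * f_N y * c_N⁻¹`, and by `pi_surj` there is `h` with `f_N h = c_N`, so
`f_N (φ y) = f_N (h * y * h⁻¹)` for all `N ∈ X_{q_j}`.  Let `Q` be the finite group
`K ⧸ ⨅_{N ∈ X_{q_j}} N`; `φ` preserves this infimum (it permutes `X_{q_j}`), and the map `F : Q → Q`,
`F x = x * h⁻¹ * (φ x)⁻¹` is not injective: `F 1 = h⁻¹ = F y`, `y ≠ 1` in `Q`.  So it is not surjective;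
take `a_j = h⁻¹` and `b_j` outside the image.
(b) choose `z_i` (`i ≤ k`) with `f_N (z_i) = f_N (b_i)` for `N ∈ X_{q_i}` and `f_N (z_i) = f_N (a_j)` for
`N ∈ X_{q_j}`, `j ≠ i`.  If `i ≠ i'` and `z_i`, `z_{i'}` were twisted conjugate, `z_i = x z_{i'} φ(x)⁻¹`, then
`f_N (b_i) = f_N (x * a_i * (φ x)⁻¹)` for all `N ∈ X_{q_i}` contradicts (a).  So there are `k + 1`
different classes, a contradiction. -/

namespace Pool.Agent.RI

namespace Simp

/-- the kernels of the surjections onto `A_{q+2}` -/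
def Ker (K : Type*) [Group K] (q : ℕ) : Set (Subgroup K) :=
  {N | ∃ f : K →* alternatingGroup (Fin (q + 2)), Function.Surjective f ∧ f.ker = N}

theorem ker_finite (K : Type*) [Group K] [Group.FG K] (q : ℕ) : (Ker K q).Finite := by
  have : Finite (K →* alternatingGroup (Fin (q + 2))) := finite_hom K _
  refine (Set.finite_range fun f : K →* alternatingGroup (Fin (q + 2)) => f.ker).subset ?_
  rintro N ⟨f, _, rfl⟩
  exact ⟨f, rfl⟩

theorem comap_mem {K : Type*} [Group K] {q : ℕ} (φ : K ≃* K) {N : Subgroup K}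
    (hN : N ∈ Ker K q) : N.comap (φ : K →* K) ∈ Ker K q := by
  obtain ⟨f, hf, rfl⟩ := hN
  refine ⟨f.comp (φ : K →* K), ?_, ?_⟩
  · intro t
    obtain ⟨x, rfl⟩ := hf t
    exact ⟨φ.symm x, by simp⟩
  · ext x
    exact Iff.rfl

/-- the main step: `n` different twisted classes from `n` different primes -/
theorem classes {K : Type*} [Group K] [Group.FG K] (φ : K ≃* K) {n : ℕ} (q : Fin n → ℕ)
    (hinj : Function.Injective q) (h5 : ∀ i, 5 ≤ q i) (hp : ∀ i, (q i).Prime)
    (hne : ∀ i, ∃ f : K →* alternatingGroup (Fin (q i + 2)), Function.Surjective f) :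
    ∃ z : Fin n → K, ∀ i i', i ≠ i' → ¬ TwConj φ (z i') (z i) := by
  classical
  have hXfin : ∀ i, Finite (Ker K (q i)) := fun i => (ker_finite K (q i)).to_subtype
  have hfex : ∀ s : (Σ i : Fin n, Ker K (q i)), ∃ f : K →* alternatingGroup (Fin (q s.1 + 2)),
      Function.Surjective f ∧ f.ker = s.2.1 := fun s => s.2.2
  choose f hf hfk using hfex
  have hsimple : ∀ s : (Σ i : Fin n, Ker K (q i)),
      IsSimpleGroup (alternatingGroup (Fin (q s.1 + 2))) := fun s => alt_simple _ (h5 s.1)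
  have hker : ∀ s s' : (Σ i : Fin n, Ker K (q i)), s ≠ s' → (f s).ker ≠ (f s').ker := by
    rintro ⟨i, N⟩ ⟨i', N'⟩ hss hk
    have h1 : Nat.card (alternatingGroup (Fin (q i + 2)))
        = Nat.card (alternatingGroup (Fin (q i' + 2))) := by
      have e1 := Nat.card_congr
        (QuotientGroup.quotientKerEquivOfSurjective (f ⟨i, N⟩) (hf ⟨i, N⟩)).toEquiv
      have e2 := Nat.card_congr
        (QuotientGroup.quotientKerEquivOfSurjective (f ⟨i', N'⟩) (hf ⟨i', N'⟩)).toEquiv
      rw [← e1, ← e2, hk]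
    have h2 : i = i' := hinj (alt_card_inj _ _ h1)
    subst h2
    apply hss
    have h3 : N = N' := by
      apply Subtype.ext
      rw [← hfk ⟨i, N⟩, ← hfk ⟨i, N'⟩, hk]
    rw [h3]
  have hsurj : ∀ t : (∀ s : (Σ i : Fin n, Ker K (q i)), alternatingGroup (Fin (q s.1 + 2))),
      ∃ y : K, ∀ s, f s y = t s := by
    intro t
    exact pi_surj (fun s : (Σ i : Fin n, Ker K (q i)) => alternatingGroup (Fin (q s.1 + 2)))
      (fun s => alt_noncomm _ (h5 s.1)) f hf hker t
  -- an element of order `q` everywhere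
  obtain ⟨y, hy⟩ := hsurj fun s => (alt_exists_order (q s.1) (hp s.1) (h5 s.1)).choose
  have hyo : ∀ s, orderOf (f s y) = q s.1 := by
    intro s
    rw [hy s]
    exact (alt_exists_order (q s.1) (hp s.1) (h5 s.1)).choose_spec
  have hmem : ∀ (s : (Σ i : Fin n, Ker K (q i))) (w : K),
      f s (φ w) = 1 ↔ f ⟨s.1, ⟨s.2.1.comap (φ : K →* K), comap_mem φ s.2.2⟩⟩ w = 1 := by
    intro s w
    rw [← MonoidHom.mem_ker, ← MonoidHom.mem_ker, hfk, hfk]
    rfl
  have hyo' : ∀ s, orderOf (f s (φ y)) = q s.1 := by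
    intro s
    refine Eq.trans ?_ (hyo ⟨s.1, ⟨s.2.1.comap (φ : K →* K), comap_mem φ s.2.2⟩⟩)
    refine orderOf_eq_orderOf_iff.mpr fun m => ?_
    rw [← map_pow, ← map_pow, ← map_pow, hmem]
  have hc : ∀ s, ∃ c, f s (φ y) = c * f s y * c⁻¹ := fun s =>
    alt_conj (q s.1) (hp s.1) (h5 s.1) _ _ (hyo s) (hyo' s)
  choose c hc using hc
  obtain ⟨h, hh⟩ := hsurj c
  have hφy : ∀ s, f s (φ y) = f s (h * y * h⁻¹) := by
    intro s
    rw [hc s, map_mul, map_mul, map_inv, hh s]
  -- step (a)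
  have ha : ∀ i : Fin n, ∃ b : K, ∀ x : K, ∃ N : Ker K (q i),
      f ⟨i, N⟩ (x * h⁻¹ * (φ x)⁻¹) ≠ f ⟨i, N⟩ b := by
    intro i
    have hfinP : Finite (Ker K (q i) → alternatingGroup (Fin (q i + 2))) := by
      have := hXfin i
      infer_instance
    set g : K → (Ker K (q i) → alternatingGroup (Fin (q i + 2))) := fun x N => f ⟨i, N⟩ x with hg
    have hgs : Function.Surjective g := by
      intro p
      obtain ⟨x, hx⟩ := hsurj fun s => if hs : s.1 = i then
        (hs ▸ p (hs ▸ s.2)) else 1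
      refine ⟨x, ?_⟩
      funext N
      have := hx ⟨i, N⟩
      simpa [hg] using this
    have hwd : ∀ x x' : K, g x = g x' → g (φ x) = g (φ x') := by
      intro x x' hxx
      funext N
      have h1 : f ⟨i, N⟩ (φ (x⁻¹ * x')) = 1 := by
        rw [hmem]
        have h2 := congrFun hxx ⟨N.1.comap (φ : K →* K), comap_mem φ N.2⟩
        simp only [hg] at h2
        rw [map_mul, map_inv, h2, inv_mul_cancel]
      rw [map_mul, map_inv, map_mul, map_inv, inv_mul_eq_one] at h1
      exact h1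
    have hgm : ∀ x x' : K, g (x * x') = g x * g x' := by
      intro x x'
      funext N
      simp [hg]
    have hgi : ∀ x : K, g x⁻¹ = (g x)⁻¹ := by
      intro x
      funext N
      simp [hg]
    choose σ hσ using hgs
    set F : (Ker K (q i) → alternatingGroup (Fin (q i + 2))) →
        (Ker K (q i) → alternatingGroup (Fin (q i + 2))) :=
      fun p => g (σ p * h⁻¹ * (φ (σ p))⁻¹) with hF
    have hFx : ∀ x, F (g x) = g (x * h⁻¹ * (φ x)⁻¹) := by
      intro x
      simp only [hF]
      rw [hgm, hgm, hgi (φ (σ (g x))), hσ, hwd _ x (hσ (g x)), hgm (x * h⁻¹), hgm x, hgi (φ x)]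
    have hninj : ¬ Function.Injective F := by
      intro hI
      have h1 : F (g y) = F (g 1) := by
        rw [hFx, hFx]
        funext N
        simp only [hg]
        rw [map_mul, map_mul, map_inv (f ⟨i, N⟩) (φ y), hφy ⟨i, N⟩]
        simp only [map_mul, map_inv, map_one, inv_one, mul_one, one_mul]
        group
      have h2 := hI h1
      obtain ⟨f0, hf0⟩ := hne i
      have h3 := congrFun h2 ⟨f0.ker, ⟨f0, hf0, rfl⟩⟩
      simp only [hg, map_one] at h3
      have h4 := hyo ⟨i, ⟨f0.ker, ⟨f0, hf0, rfl⟩⟩⟩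
      rw [h3, orderOf_one] at h4
      have := h5 i
      simp only at h4
      omega
    have hnsurj : ¬ Function.Surjective F := fun hS =>
      hninj (Finite.injective_iff_surjective.mpr hS)
    simp only [Function.Surjective, not_forall, not_exists] at hnsurj
    obtain ⟨p, hp'⟩ := hnsurj
    refine ⟨σ p, fun x => ?_⟩
    by_contra hcon
    push Not at hcon
    apply hp' (g x)
    rw [hFx, ← hσ p]
    funext N
    exact hcon N
  choose b hb using ha
  have hz : ∀ i : Fin n, ∃ z : K, ∀ s : (Σ i : Fin n, Ker K (q i)),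
      f s z = if s.1 = i then f s (b i) else f s h⁻¹ := fun i => hsurj _
  choose z hz using hz
  refine ⟨z, fun i i' hii => ?_⟩
  rintro ⟨x, hx⟩
  obtain ⟨N, hN⟩ := hb i x
  apply hN
  have h1 := hz i ⟨i, N⟩
  have h2 := hz i' ⟨i, N⟩
  simp only [if_true] at h1
  rw [if_neg hii] at h2
  rw [← h1, hx, map_mul, map_mul, map_mul, map_mul, h2]

end Simp

theorem infReid_of_alt {K : Type*} [Group K] [Group.FG K]
    (h : ∀ n : ℕ, ∃ q, n ≤ q ∧ q.Prime ∧
      ∃ f : K →* alternatingGroup (Fin (q + 2)), Function.Surjective f)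
    (φ : K ≃* K) : InfReid φ := by
  unfold InfReid
  by_contra hfin
  rw [not_infinite_iff_finite] at hfin
  have hJ : {q : ℕ | 5 ≤ q ∧ q.Prime ∧
      ∃ f : K →* alternatingGroup (Fin (q + 2)), Function.Surjective f}.Infinite := by
    rw [Set.infinite_iff_exists_gt]
    intro a
    obtain ⟨q, hq, hp, hf⟩ := h (a + 5)
    exact ⟨q, ⟨by omega, hp, hf⟩, by omega⟩
  have hJ' : Infinite {q : ℕ | 5 ≤ q ∧ q.Prime ∧
      ∃ f : K →* alternatingGroup (Fin (q + 2)), Function.Surjective f} := hJ.to_subtype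
  set e := Infinite.natEmbedding {q : ℕ | 5 ≤ q ∧ q.Prime ∧
      ∃ f : K →* alternatingGroup (Fin (q + 2)), Function.Surjective f} with he
  obtain ⟨z, hz⟩ := Simp.classes φ (n := Nat.card (Quot (TwConj φ)) + 1)
    (fun i => (e i.1).1) (fun i j hij => Fin.ext (e.injective (Subtype.ext hij)))
    (fun i => (e i.1).2.1) (fun i => (e i.1).2.2.1) (fun i => (e i.1).2.2.2)
  have hinj : Function.Injective fun i : Fin (Nat.card (Quot (TwConj φ)) + 1) =>
      (Quot.mk (TwConj φ) (z i)) := by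
    intro i i' hii
    by_contra hne
    apply hz i' i (Ne.symm hne)
    exact (Quotient.exact (s := ⟨TwConj φ, twConj_equivalence φ⟩) hii : TwConj φ (z i) (z i'))
  have h1 := Nat.card_le_card_of_injective _ hinj
  simp at h1

end Pool.Agent.RI
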